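import Pool.Agent.Helper21.Pin.Step

namespace Pool.Agent.Helper21.Pin

set_option maxHeartbeats 4000000 in
theorem big_step (F : ℕ) (c C' : ℝ) (hc : 0 < c) (hC' : 0 < C')
    (ih : ∀ (ι : Type) [Fintype ι] (x : ι → ℕ) (a : ℕ) (z : ℝ),
      1 ≤ a → (∀ i, a ≤ x i) → 0 ≤ z → C' ≤ z ^ (F + 1) * (a : ℝ) ^ F →
      ∑ i, 1 / (x i : ℝ) ≤ 1 - z → Sched x)
    (hcov : CoverStmt F c) (T : ℕ) (B : Finset ℕ) (hT8 : 8 ≤ T)
    (hB : ∀ b ∈ B, b.Prime ∧ T < b ∧ b ≤ 4 * T) (hFB : F ≤ B.card)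
    (hBcard : (T : ℝ) / (2 * Real.log T) ≤ B.card)
    (y : ℝ) (hy1 : 1 ≤ y) (hyT : y ^ (2 * F + 4) = T) (hlog1 : 1 ≤ Real.log T)
    (hK1 : c * 2 ^ F * (F + 5) * Real.log T ^ (F + 1) ≤ y)
    (hK2 : 48 * (F + 6) * Real.log T ^ (F + 1) ≤ y)
    (hK3 : C' * 2 ^ (3 * F + 1) * (c₁ F + 1) ≤ y)
    (a : ℕ) (haT : a ≤ T ^ (F + 3)) (hTa : T ^ (F + 3) ≤ 2 * a)
    {ι : Type} [Fintype ι] (x : ι → ℕ) (hx : ∀ i, a ≤ x i) (z : ℝ)
    (hz : (c₁ F + 12) * T * y ^ 2 / a ≤ z) (hD : ∑ i, 1 / (x i : ℝ) ≤ 1 - z) : Sched x := by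
  -- numbers
  have hc1 := c₁_nonneg F
  have hT8' : (8 : ℝ) ≤ T := by exact_mod_cast hT8
  have hT0 : (0 : ℝ) < T := by linarith
  have hy2 : y ^ 2 ≤ T := by
    rw [← hyT]; exact pow_le_pow_right₀ hy1 (by omega)
  have hyy : y ≤ y ^ 2 := by nlinarith
  have hyleT : y ≤ T := hyy.trans hy2
  have haT' : (a : ℝ) ≤ (T : ℝ) ^ (F + 3) := by exact_mod_cast haT
  have hTa' : (T : ℝ) ^ (F + 3) ≤ 2 * a := by exact_mod_cast hTa
  have hT3 : (T : ℝ) ^ 3 ≤ 2 * a :=
    (pow_le_pow_right₀ (by linarith) (by omega)).trans hTa'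
  have ha0 : (0 : ℝ) < a := by
    have : 0 < (T : ℝ) ^ 3 := by positivity
    linarith
  have ha1 : 1 ≤ a := by
    have : 0 < a := by exact_mod_cast ha0
    omega
  -- J
  obtain ⟨J, hJ⟩ : ∃ J : ℕ, J = ⌈(T : ℝ) * y⌉₊ := ⟨_, rfl⟩
  have hTy : 8 ≤ (T : ℝ) * y := by nlinarith
  have hJ1 : (T : ℝ) * y ≤ J := hJ ▸ Nat.le_ceil _
  have hJ2 : (J : ℝ) ≤ 2 * (T * y) := by
    have := Nat.ceil_lt_add_one (show (0 : ℝ) ≤ (T : ℝ) * y by positivity)
    rw [← hJ] at this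
    linarith
  have hTTy : 8 * (T * y) ≤ (T : ℝ) ^ 3 := by
    have : (T : ℝ) ^ 3 = T * T * T := by ring
    rw [this]
    have h1 : (T : ℝ) * y ≤ T * T := by gcongr
    nlinarith
  have hJa : (J : ℝ) ≤ (a : ℝ) / 2 := by linarith
  have hxa : ∀ i, (a : ℝ) ≤ x i := fun i => by exact_mod_cast hx i
  obtain ⟨s, hs⟩ : ∃ s : ι → ℝ, ∀ i, s i = (x i : ℝ) - J := ⟨_, fun _ => rfl⟩
  have hsa : ∀ i, (a : ℝ) / 2 ≤ s i := fun i => by rw [hs]; linarith [hxa i]
  have hs0 : ∀ i, 0 < s i := fun i => lt_of_lt_of_le (by positivity) (hsa i)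
  have hz0 : 0 ≤ z := le_trans (by positivity) hz
  -- the octave
  obtain ⟨l₀, hl1, hl2, hl3⟩ := octave s ((a : ℝ) / 2) (by positivity) hsa
  have hD0 : D l₀ ≤ ∑ i, 1 / (x i : ℝ) + 2 * J / a + 4 / a := by
    have h1 := shift_cost x a J ha0 hxa (by positivity) hJa (by linarith)
    simp only [← hs] at h1
    have h2 : (2 : ℝ) / (a / 2) = 4 / a := by field_simp; norm_num
    rw [h2] at hl3
    linarith
  have hu0 : 0 < (1 : ℝ) / a := by positivity
  obtain ⟨u, hu⟩ : ∃ u : ℝ, u = T * y ^ 2 / a := ⟨_, rfl⟩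
  have hTy2 : (T : ℝ) * y ≤ T * y ^ 2 := by gcongr
  have hu1 : 2 * (J : ℝ) / a ≤ 4 * u := by
    rw [hu, ← mul_div_assoc]
    apply div_le_div_of_nonneg_right _ ha0.le
    linarith
  have hu2 : 4 / (a : ℝ) ≤ u := by
    rw [hu]; gcongr; linarith
  have hu3 : y * ((c₁ F + 2) * T / a) ≤ (c₁ F + 2) * u := by
    rw [hu]
    have : (c₁ F + 2) * (T * y ^ 2 / (a : ℝ)) - y * ((c₁ F + 2) * T / a) =
        (c₁ F + 2) * (T * y ^ 2 - T * y) / a := by ring
    have h2 : 0 ≤ (c₁ F + 2) * (T * y ^ 2 - T * y) / (a : ℝ) := by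
      apply div_nonneg _ ha0.le
      apply mul_nonneg (by linarith)
      linarith
    linarith
  have hu4 : (c₁ F + 12) * u ≤ z := by
    have : (c₁ F + 12) * u = (c₁ F + 12) * T * y ^ 2 / a := by rw [hu]; ring
    rw [this]; exact hz
  have hu5 : 1 / (a : ℝ) ≤ u := by
    rw [hu]; gcongr; linarith
  have hupos : 0 < u := lt_of_lt_of_le hu0 hu5
  have hcu : 0 ≤ c₁ F * u := by positivity
  have hD1 : D l₀ ≤ 1 - z + 5 * u := by linarith
  have hD2 : D l₀ ≤ 1 := by linarith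
  -- the set of periods
  classical
  obtain ⟨X, hX⟩ : ∃ X : Finset ℝ, X = (l₀.map Node.p).toFinset := ⟨_, rfl⟩
  have hXmem : ∀ nd ∈ l₀, nd.p ∈ X := fun nd hnd => by
    rw [hX, List.mem_toFinset]; exact List.mem_map_of_mem hnd
  have hXcard : (X.card : ℝ) ≤ a := by
    have h1 : X.card ≤ l₀.length := by
      rw [hX]; exact (List.toFinset_card_le _).trans (by rw [List.length_map])
    have h2 : (l₀.length : ℝ) ≤ 2 * ((a : ℝ) / 2) * D l₀ :=
      length_le_of_D l₀ _ fun nd hnd => (hl1 nd hnd).2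
    have h3 : (X.card : ℝ) ≤ l₀.length := by exact_mod_cast h1
    calc (X.card : ℝ) ≤ l₀.length := h3
      _ ≤ 2 * ((a : ℝ) / 2) * D l₀ := h2
      _ ≤ 2 * ((a : ℝ) / 2) * 1 := by gcongr
      _ = a := by ring
  have hXoct : ∀ p ∈ X, (a : ℝ) / 2 ≤ p ∧ p ≤ 2 * ((a : ℝ) / 2) := by
    intro p hp
    rw [hX, List.mem_toFinset, List.mem_map] at hp
    obtain ⟨nd, hnd, rfl⟩ := hp
    exact hl1 nd hnd
  obtain ⟨Ws, hWs1, hWs2, hWs3⟩ := hcov T B (by omega) hB hFB ((a : ℝ) / 2) (by positivity) X hXoct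
  -- few scales
  have hlog0 : 0 < Real.log T := by linarith
  have hBpos : (0 : ℝ) < B.card := lt_of_lt_of_le (by positivity) hBcard
  have hTB : (T : ℝ) / B.card ≤ 2 * Real.log T := by
    rw [div_le_iff₀ (by positivity)] at hBcard ⊢
    linarith
  have hlogpow : Real.log T ≤ Real.log T ^ (F + 1) := le_self_pow₀ hlog1 (by omega)
  have hWcard : (Ws.card : ℝ) ≤ y := by
    have h1 : Real.log ((X.card : ℝ) + 1) + 1 ≤ (F + 5) * Real.log T := by
      have h2 : (X.card : ℝ) + 1 ≤ (T : ℝ) ^ (F + 4) := by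
        have h3 : (1 : ℝ) ≤ (T : ℝ) ^ (F + 3) := one_le_pow₀ (by linarith)
        have h4 : (T : ℝ) ^ (F + 4) = T ^ (F + 3) * T := by ring
        rw [h4]
        nlinarith
      have h5 : Real.log ((X.card : ℝ) + 1) ≤ (F + 4) * Real.log T := by
        calc Real.log ((X.card : ℝ) + 1) ≤ Real.log ((T : ℝ) ^ (F + 4)) :=
              Real.log_le_log (by positivity) h2
          _ = (F + 4) * Real.log T := by rw [Real.log_pow]; push_cast; ring
      linarith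
    calc (Ws.card : ℝ) ≤ c * ((T : ℝ) / B.card) ^ F * (Real.log (X.card + 1) + 1) := hWs1
      _ ≤ c * (2 * Real.log T) ^ F * ((F + 5) * Real.log T) := by
          have : 0 ≤ Real.log ((X.card : ℝ) + 1) + 1 := by
            have : 0 ≤ Real.log ((X.card : ℝ) + 1) := Real.log_nonneg (by
              have : (0 : ℝ) ≤ X.card := by positivity
              linarith)
            linarith
          gcongr
      _ = c * 2 ^ F * (F + 5) * Real.log T ^ (F + 1) := by rw [mul_pow]; ring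
      _ ≤ y := hK1
  have hBne : B.Nonempty := by
    rw [← Finset.card_pos]; exact_mod_cast hBpos
  obtain ⟨l, A, Λ, hA1, hA2, hA3, hA4, hA5⟩ := all_scales hs0 F T (by omega) B
    (fun b hb => (hB b hb).2) hBne a ha0 l₀ hl2 X hXmem Ws hWs2 hWs3
  have hΛ0 : 0 ≤ Λ := le_trans (Finset.sum_nonneg fun i _ => by have := hs0 i; positivity) hA2
  -- the reserved channel
  have hhost : Host s (1 / (Λ + u)) A := by
    rcases Nat.eq_zero_or_pos F with hF | hF
    · have h1 : Λ ≤ 0 := by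
        refine hA3.trans ?_
        subst hF
        simp [c₁]
      have h2 : A = ∅ := by
        apply Finset.eq_empty_of_forall_notMem
        intro i hi
        have h3 : 1 / s i ≤ ∑ i ∈ A, 1 / s i :=
          Finset.single_le_sum (f := fun i => 1 / s i)
            (fun j _ => by have := hs0 j; positivity) hi
        have h4 : 0 < 1 / s i := by have := hs0 i; positivity
        linarith
      rw [h2]
      exact ⟨fun _ => none, fun i hi => absurd hi (Finset.notMem_empty i)⟩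
    · apply reserve F C' ih s A a ha0 hsa Λ u hA2
      · rw [hu]
        field_simp
        nlinarith
      · have h1 : Λ + u ≤ (c₁ F + 1) * (y * (T : ℝ) ^ (F + 1) / a) := by
          have h2 : Λ ≤ c₁ F * (y * (T : ℝ) ^ (F + 1) / a) := by
            calc Λ ≤ Ws.card * (c₁ F * (T : ℝ) ^ (F + 1) / a) := hA3
              _ ≤ y * (c₁ F * (T : ℝ) ^ (F + 1) / a) := by gcongr
              _ = _ := by ring
          have h3 : u ≤ y * (T : ℝ) ^ (F + 1) / a := by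
            rw [hu]
            gcongr ?_ / _
            have h4 : y ≤ (T : ℝ) ^ F := by
              refine hyleT.trans (le_self_pow₀ (by linarith) (by omega))
            calc (T : ℝ) * y ^ 2 = T * y * y := by ring
              _ ≤ T * y * (T : ℝ) ^ F := by gcongr
              _ = _ := by ring
          linarith
        calc C' * 2 ^ (3 * F + 1) * (Λ + u)
            ≤ C' * 2 ^ (3 * F + 1) * ((c₁ F + 1) * (y * (T : ℝ) ^ (F + 1) / a)) := by gcongr
          _ = (C' * 2 ^ (3 * F + 1) * (c₁ F + 1)) * y * ((T : ℝ) ^ (F + 1) / a) := by ring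
          _ ≤ y * y * ((T : ℝ) ^ (F + 1) / a) := by gcongr
          _ ≤ y ^ (2 * (F + 1)) * ((T : ℝ) ^ (F + 1) / a) := by
              gcongr
              rw [← pow_two]
              exact pow_le_pow_right₀ hy1 (by omega)
          _ = u ^ (F + 1) * (a : ℝ) ^ F := by
              rw [hu, div_pow, mul_pow, ← pow_mul]
              field_simp
              ring
  have hΛu : 0 < Λ + u := by linarith
  obtain ⟨nd, hnd1, hnd2⟩ : ∃ nd : Node s, nd.p = 1 / (Λ + u) ∧ nd.A = A :=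
    ⟨{ p := 1 / (Λ + u), A := A, pos := by positivity,
       dens := by rw [one_div_one_div]; linarith, host := hhost }, rfl, rfl⟩
  have hWterm : (Ws.card : ℝ) * ((c₁ F + 2) * T / a) ≤ (c₁ F + 2) * u := by
    refine le_trans ?_ hu3
    gcongr
  have hTT : (T : ℝ) ≤ T ^ 2 := by nlinarith
  have hDl0 := D_nonneg l₀
  have hD3 : D l₀ + Ws.card * ((c₁ F + 2) * T / a) ≤ 1 := by linarith
  have hD4 : 0 ≤ D l₀ + Ws.card * ((c₁ F + 2) * T / a) := by positivity
  have hlen : ((nd :: l).length : ℝ) ≤ 6 * (T : ℝ) ^ 2 := by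
    rw [List.length_cons]
    push_cast
    have h3 : 2 * (a : ℝ) / (T : ℝ) ^ (F + 1) ≤ 2 * T ^ 2 := by
      rw [div_le_iff₀ (by positivity)]
      calc 2 * (a : ℝ) ≤ 2 * (T : ℝ) ^ (F + 3) := by linarith
        _ = _ := by ring
    have h4 : 2 * (a : ℝ) / (T : ℝ) ^ (F + 1) * (D l₀ + Ws.card * ((c₁ F + 2) * T / a)) ≤
        2 * T ^ 2 * 1 := by gcongr
    linarith
  have hT2pos : 0 < T ^ 2 := by
    have : 0 < T := by omega
    positivity
  refine sched_of_nodes x J s hs (nd :: l) ?_ (1 / a) ?_ ?_ (6 * T ^ 2) (6 * T ^ 2 * a)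
    ?_ ?_ ?_ ?_ ?_ ?_
  · intro i
    rcases hA1 i with h | h
    · obtain ⟨nd', h1, h2⟩ := h
      exact ⟨nd', List.mem_cons_of_mem _ h1, h2⟩
    · exact ⟨nd, List.mem_cons_self, by rw [hnd2]; exact h⟩
  · positivity
  · rw [D_cons, hnd1, one_div_one_div]
    linarith
  · omega
  · exact_mod_cast hlen
  · have : 0 < T ^ 2 * a := Nat.mul_pos hT2pos (by omega)
    nlinarith
  · refine hlen.trans (le_of_eq ?_)
    push_cast
    field_simp
  · have h1 : (J : ℝ) ≤ 2 * (6 * (T : ℝ) ^ 2) := by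
      have : (T : ℝ) * y ≤ T * T := by gcongr
      nlinarith
    exact_mod_cast h1
  · have h1 : Real.log (((6 * T ^ 2 * a : ℕ) : ℝ) + 1) ≤ (F + 6) * Real.log T := by
      have h2 : ((6 * T ^ 2 * a : ℕ) : ℝ) + 1 ≤ (T : ℝ) ^ (F + 6) := by
        push_cast
        have h3 : (1 : ℝ) ≤ (T : ℝ) ^ (F + 5) := one_le_pow₀ (by linarith)
        calc 6 * (T : ℝ) ^ 2 * a + 1 ≤ 6 * (T : ℝ) ^ 2 * (T : ℝ) ^ (F + 3) + 1 := by gcongr
          _ = 6 * (T : ℝ) ^ (F + 5) + 1 := by ring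
          _ ≤ T * (T : ℝ) ^ (F + 5) := by nlinarith
          _ = _ := by ring
      calc Real.log (((6 * T ^ 2 * a : ℕ) : ℝ) + 1) ≤ Real.log ((T : ℝ) ^ (F + 6)) :=
            Real.log_le_log (by positivity) h2
        _ = (F + 6) * Real.log T := by rw [Real.log_pow]; push_cast; ring
    have h2 : 48 * (F + 6) * Real.log T ≤ y ^ 2 := by
      calc 48 * ((F : ℝ) + 6) * Real.log T ≤ 48 * (F + 6) * Real.log T ^ (F + 1) := by gcongr
        _ ≤ y := hK2
        _ ≤ y ^ 2 := hyy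
    calc 8 * ((6 * T ^ 2 : ℕ) : ℝ) * Real.log (((6 * T ^ 2 * a : ℕ) : ℝ) + 1)
        ≤ 8 * ((6 * T ^ 2 : ℕ) : ℝ) * ((F + 6) * Real.log T) := by gcongr
      _ = (T : ℝ) ^ 2 * (48 * (F + 6) * Real.log T) := by push_cast; ring
      _ ≤ (T : ℝ) ^ 2 * y ^ 2 := by gcongr
      _ = (T * y) ^ 2 := by ring
      _ ≤ (J : ℝ) ^ 2 := by gcongr

end Pool.Agent.Helper21.Pin
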