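import Pool.Agent.Helper21.Pin.Defs

namespace Pool.Agent.Helper21.Pin

/-! Greedy covering (copied from `Pool/Agent/Helper79/Pyj/Greedy.lean`). -/

section Greedy

open Finset

private lemma two_mul_pow_le (m : ℕ) : 2 * m ^ (m + 1) ≤ (m + 1) ^ (m + 1) := by
  rcases Nat.eq_zero_or_pos m with rfl | hm
  · norm_num
  · have hm' : (0 : ℝ) < m := by exact_mod_cast hm
    have h1 : 1 + ((m + 1 : ℕ) : ℝ) * (1 / m) ≤ (1 + 1 / (m : ℝ)) ^ (m + 1) :=
      one_add_mul_le_pow (by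
        have : (0 : ℝ) < 1 / m := by positivity
        linarith) _
    have h2 : (2 : ℝ) ≤ (1 + 1 / (m : ℝ)) ^ (m + 1) := by
      refine le_trans ?_ h1
      push_cast
      have : ((m : ℝ) + 1) * (1 / m) = 1 + 1 / m := by field_simp
      rw [this]
      have : (0 : ℝ) < 1 / m := by positivity
      linarith
    have h3 : ((m : ℝ) + 1) ^ (m + 1) = (1 + 1 / (m : ℝ)) ^ (m + 1) * (m : ℝ) ^ (m + 1) := by
      rw [← mul_pow]
      congr 1
      field_simp
    have h4 : (2 : ℝ) * (m : ℝ) ^ (m + 1) ≤ ((m : ℝ) + 1) ^ (m + 1) := by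
      rw [h3]
      exact mul_le_mul_of_nonneg_right h2 (by positivity)
    exact_mod_cast h4

open Classical in
private lemma greedy_step {α β : Type*} (A : Finset α) (T : Finset β) (h : β → α → Prop)
    (k0 : ℕ) (hne : A.Nonempty)
    (hA : ∀ t ∈ T, A.card ≤ k0 * (A.filter (h t)).card) :
    ∃ a ∈ A, T.card ≤ k0 * (T.filter fun t => h t a).card := by
  by_contra hcon
  push Not at hcon
  have h1 : ∑ a ∈ A, (T.filter fun t => h t a).card = ∑ t ∈ T, (A.filter (h t)).card := by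
    have e1 : ∀ a ∈ A, (T.filter fun t => h t a).card = ∑ t ∈ T, if h t a then 1 else 0 := by
      intro a _; rw [card_filter]
    have e2 : ∀ t ∈ T, (A.filter (h t)).card = ∑ a ∈ A, if h t a then 1 else 0 := by
      intro t _; rw [card_filter]
    rw [sum_congr rfl e1, sum_congr rfl e2, sum_comm]
  have h2 : T.card * A.card ≤ k0 * ∑ t ∈ T, (A.filter (h t)).card := by
    rw [mul_sum, ← smul_eq_mul, ← sum_const]
    exact sum_le_sum hA
  have h3 : k0 * ∑ a ∈ A, (T.filter fun t => h t a).card < A.card * T.card := by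
    rw [mul_sum, ← smul_eq_mul, ← sum_const]
    exact sum_lt_sum_of_nonempty hne hcon
  rw [h1] at h3
  rw [mul_comm] at h2
  omega

open Classical in
private lemma greedy_many {α β : Type*} (A : Finset α) (T : Finset β) (h : β → α → Prop)
    (k0 : ℕ) (hk : 1 ≤ k0) (hne : A.Nonempty)
    (hA : ∀ t ∈ T, A.card ≤ k0 * (A.filter (h t)).card) (j : ℕ) :
    ∃ W ⊆ A, W.card ≤ j ∧
      k0 ^ j * (T.filter fun t => ∀ a ∈ W, ¬ h t a).card ≤ (k0 - 1) ^ j * T.card := by
  induction j with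
  | zero => exact ⟨∅, by simp, by simp, by simp⟩
  | succ j ih =>
    obtain ⟨W, hW, hc, hr⟩ := ih
    set T' := T.filter fun t => ∀ a ∈ W, ¬ h t a with hT'
    obtain ⟨a, ha, hh⟩ := greedy_step A T' h k0 hne
      (fun t ht => hA t (mem_filter.1 ht).1)
    refine ⟨insert a W, insert_subset ha hW, (card_insert_le _ _).trans (by omega), ?_⟩
    have e1 : (T.filter fun t => ∀ b ∈ insert a W, ¬ h t b) = T'.filter fun t => ¬ h t a := by
      ext t
      simp only [hT', mem_filter, mem_insert, forall_eq_or_imp]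
      tauto
    rw [e1]
    have e2 := card_filter_add_card_filter_not (s := T') (fun t => h t a)
    have e3 : k0 * (T'.filter fun t => ¬ h t a).card ≤ (k0 - 1) * T'.card := by
      have : k0 * T'.card = k0 * (T'.filter fun t => h t a).card +
          k0 * (T'.filter fun t => ¬ h t a).card := by rw [← mul_add, e2]
      obtain ⟨k, rfl⟩ : ∃ k, k0 = k + 1 := ⟨k0 - 1, by omega⟩
      simp only [Nat.add_sub_cancel]
      have h5 : (k + 1) * T'.card = k * T'.card + T'.card := by ring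
      omega
    calc k0 ^ (j + 1) * (T'.filter fun t => ¬ h t a).card
        = k0 ^ j * (k0 * (T'.filter fun t => ¬ h t a).card) := by ring
      _ ≤ k0 ^ j * ((k0 - 1) * T'.card) := Nat.mul_le_mul_left _ e3
      _ = (k0 - 1) * (k0 ^ j * T'.card) := by ring
      _ ≤ (k0 - 1) * ((k0 - 1) ^ j * T.card) := Nat.mul_le_mul_left _ hr
      _ = (k0 - 1) ^ (j + 1) * T.card := by ring

open Classical in
private lemma greedy_cover {α β : Type*} (A : Finset α) (T : Finset β) (h : β → α → Prop) (k0 l : ℕ)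
    (hne : A.Nonempty) (hT : T.card < 2 ^ l)
    (hA : ∀ t ∈ T, A.card ≤ k0 * (A.filter (h t)).card) :
    ∃ W ⊆ A, W.card ≤ k0 * l ∧ ∀ t ∈ T, ∃ a ∈ W, h t a := by
  induction l generalizing T with
  | zero =>
    refine ⟨∅, by simp, by simp, fun t ht => ?_⟩
    have : T = ∅ := card_eq_zero.1 (by simpa using hT)
    rw [this] at ht; simp at ht
  | succ l ih =>
    rcases T.eq_empty_or_nonempty with h0 | ⟨t0, ht0⟩
    · exact ⟨∅, by simp, by simp, fun t ht => by rw [h0] at ht; simp at ht⟩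
    have hk : 1 ≤ k0 := by
      by_contra hcon
      have : k0 = 0 := by omega
      have h1 := hA t0 ht0
      rw [this, zero_mul] at h1
      have := hne.card_pos
      omega
    obtain ⟨W, hW, hc, hr⟩ := greedy_many A T h k0 hk hne hA k0
    set T' := T.filter fun t => ∀ a ∈ W, ¬ h t a with hT'
    have h1 : 2 * T'.card ≤ T.card := by
      obtain ⟨m, rfl⟩ : ∃ m, k0 = m + 1 := ⟨k0 - 1, by omega⟩
      simp only [Nat.add_sub_cancel] at hr
      have h2 := two_mul_pow_le m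
      have hpos : 0 < (m + 1) ^ (m + 1) := by positivity
      have h3 : (m + 1) ^ (m + 1) * (2 * T'.card) ≤ (m + 1) ^ (m + 1) * T.card := by
        calc (m + 1) ^ (m + 1) * (2 * T'.card) = 2 * ((m + 1) ^ (m + 1) * T'.card) := by ring
          _ ≤ 2 * (m ^ (m + 1) * T.card) := Nat.mul_le_mul_left _ hr
          _ = (2 * m ^ (m + 1)) * T.card := by ring
          _ ≤ (m + 1) ^ (m + 1) * T.card := Nat.mul_le_mul_right _ h2
      exact Nat.le_of_mul_le_mul_left h3 hpos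
    obtain ⟨W', hW', hc', hr'⟩ := ih T' (by rw [pow_succ] at hT; omega)
      (fun t ht => hA t (mem_filter.1 ht).1)
    refine ⟨W ∪ W', union_subset hW hW', (card_union_le _ _).trans (by
      rw [mul_add, mul_one]; omega), fun t ht => ?_⟩
    by_cases hcov : ∃ a ∈ W, h t a
    · obtain ⟨a, ha, hta⟩ := hcov
      exact ⟨a, mem_union_left _ ha, hta⟩
    · push Not at hcov
      obtain ⟨a, ha, hta⟩ := hr' t (mem_filter.2 ⟨ht, hcov⟩)
      exact ⟨a, mem_union_right _ ha, hta⟩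

end Greedy

/-- The number of `F`-element subsets. -/
private lemma pow_le_choose_real (F n : ℕ) (hF : 1 ≤ F) (h : F ≤ n) :
    (n : ℝ) ^ F ≤ (F : ℝ) ^ F * (F.factorial : ℝ) * (n.choose F : ℝ) := by
  have h1 := Nat.pow_le_choose (α := ℝ) F n
  have h2 : (n : ℝ) ≤ F * ((n + 1 - F : ℕ) : ℝ) := by
    have : n ≤ F * (n + 1 - F) := by
      obtain ⟨k, rfl⟩ := Nat.exists_eq_add_of_le h
      have e : F + k + 1 - F = k + 1 := by omega
      rw [e]
      nlinarith
    exact_mod_cast this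
  have hf : (0 : ℝ) < F.factorial := by exact_mod_cast F.factorial_pos
  rw [div_le_iff₀ hf] at h1
  calc (n : ℝ) ^ F ≤ (F * ((n + 1 - F : ℕ) : ℝ)) ^ F := by gcongr
    _ = (F : ℝ) ^ F * ((n + 1 - F : ℕ) : ℝ) ^ F := by rw [mul_pow]
    _ ≤ (F : ℝ) ^ F * ((n.choose F : ℝ) * F.factorial) := by
        refine mul_le_mul_of_nonneg_left ?_ (by positivity)
        exact_mod_cast h1
    _ = _ := by ring

/-- Bernoulli. -/
private lemma grid_long (F T : ℕ) (hT : 1 ≤ T) :
    2 * (4 : ℝ) ^ F < (1 + 1 / (4 * (T : ℝ)) ^ F) ^ ((2 * F + 2) * (4 * T) ^ F) := by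
  have hT0 : (0 : ℝ) < (4 * (T : ℝ)) ^ F := by
    have : (0 : ℝ) < T := by exact_mod_cast hT
    positivity
  have h1 : (2 : ℝ) ≤ (1 + 1 / (4 * (T : ℝ)) ^ F) ^ ((4 * T) ^ F) := by
    have := one_add_mul_le_pow (a := 1 / (4 * (T : ℝ)) ^ F) (by
      have : (0 : ℝ) < 1 / (4 * (T : ℝ)) ^ F := by positivity
      linarith) ((4 * T) ^ F)
    refine le_trans ?_ this
    push_cast
    rw [mul_one_div, div_self hT0.ne']
    norm_num
  calc 2 * (4 : ℝ) ^ F = 2 ^ (2 * F + 1) := by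
        rw [show (4 : ℝ) = 2 ^ 2 by norm_num, ← pow_mul]; ring
    _ < 2 ^ (2 * F + 2) := by
        apply pow_lt_pow_right₀ (by norm_num) (by omega)
    _ ≤ ((1 + 1 / (4 * (T : ℝ)) ^ F) ^ ((4 * T) ^ F)) ^ (2 * F + 2) := by gcongr
    _ = _ := by rw [← pow_mul]; ring_nf

/-- Products of `F` elements of `B`. -/
private lemma prod_bounds (F T : ℕ) (B : Finset ℕ) (hB : ∀ b ∈ B, b.Prime ∧ T < b ∧ b ≤ 4 * T)
    (S : Finset ℕ) (hS : S ∈ Finset.powersetCard F B) :
    (T : ℝ) ^ F ≤ ((∏ p ∈ S, p : ℕ) : ℝ) ∧ ((∏ p ∈ S, p : ℕ) : ℝ) ≤ (4 * (T : ℝ)) ^ F := by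
  obtain ⟨h1, h2⟩ := Finset.mem_powersetCard.1 hS
  push_cast
  constructor
  · rw [← h2, ← Finset.prod_const]
    refine Finset.prod_le_prod (fun _ _ => by positivity) fun p hp => ?_
    exact_mod_cast (hB p (h1 hp)).2.1.le
  · rw [← h2, ← Finset.prod_const]
    refine Finset.prod_le_prod (fun _ _ => by positivity) fun p hp => ?_
    exact_mod_cast (hB p (h1 hp)).2.2

/-- For every point `x` of the octave many scales of the grid cover it. -/
private lemma many_scales (F : ℕ) (hF : 1 ≤ F) (T : ℕ) (B : Finset ℕ) (hT : 1 ≤ T)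
    (hB : ∀ b ∈ B, b.Prime ∧ T < b ∧ b ≤ 4 * T) (a : ℝ) (ha : 0 < a) (x : ℝ) (hx1 : a ≤ x)
    (hx2 : x ≤ 2 * a) (A : Finset ℕ)
    (hA : ∀ j, j ∈ A ↔ j < (2 * F + 2) * (4 * T) ^ F ∧ ∃ S ∈ Finset.powersetCard F B,
      ((∏ p ∈ S, p : ℕ) : ℝ) * (a / (4 * (T : ℝ)) ^ F * (1 + 1 / (4 * (T : ℝ)) ^ F) ^ j) ≤ x ∧
      x < ((∏ p ∈ S, p : ℕ) : ℝ) * (a / (4 * (T : ℝ)) ^ F * (1 + 1 / (4 * (T : ℝ)) ^ F) ^ (j + 1))) :
    B.card.choose F ≤ A.card := by
  classical
  have hT0 : (0 : ℝ) < T := by exact_mod_cast hT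
  set w : ℝ := 1 / (4 * (T : ℝ)) ^ F with hw
  have hw0 : 0 < w := by positivity
  set V : ℝ := a / (4 * (T : ℝ)) ^ F with hV
  have hV0 : 0 < V := by positivity
  have key : ∀ S ∈ Finset.powersetCard F B, ∃ j ∈ A,
      ((∏ p ∈ S, p : ℕ) : ℝ) * (V * (1 + w) ^ j) ≤ x ∧
      x < ((∏ p ∈ S, p : ℕ) : ℝ) * (V * (1 + w) ^ (j + 1)) := by
    intro S hS
    obtain ⟨hl, hu⟩ := prod_bounds F T B hB S hS
    have hPpos : (0 : ℝ) < ((∏ p ∈ S, p : ℕ) : ℝ) := lt_of_lt_of_le (by positivity) hl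
    -- the largest `j` with `P W_j ≤ x`
    have hex : ∃ j, x < ((∏ p ∈ S, p : ℕ) : ℝ) * (V * (1 + w) ^ (j + 1)) ∧
        j < (2 * F + 2) * (4 * T) ^ F := by
      have hK : 0 < (2 * F + 2) * (4 * T) ^ F := by positivity
      refine ⟨(2 * F + 2) * (4 * T) ^ F - 1, ?_, by omega⟩
      rw [Nat.sub_add_cancel hK]
      have h1 := grid_long F T hT
      rw [← hw] at h1
      calc x ≤ 2 * a := hx2
        _ = (T : ℝ) ^ F * (V * (2 * (4 : ℝ) ^ F)) := by
            rw [hV, mul_pow]; field_simp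
        _ < (T : ℝ) ^ F * (V * (1 + w) ^ ((2 * F + 2) * (4 * T) ^ F)) := by gcongr
        _ ≤ _ := by gcongr
    let j0 := Nat.find hex
    have hj0 := Nat.find_spec hex
    have hle : ((∏ p ∈ S, p : ℕ) : ℝ) * (V * (1 + w) ^ (Nat.find hex)) ≤ x := by
      rcases Nat.eq_zero_or_pos (Nat.find hex) with h0 | hpos
      · rw [h0, pow_zero, mul_one]
        calc ((∏ p ∈ S, p : ℕ) : ℝ) * V ≤ (4 * (T : ℝ)) ^ F * V := by gcongr
          _ = a := by rw [hV]; field_simp
          _ ≤ x := hx1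
      · have hlt : Nat.find hex - 1 < Nat.find hex := by omega
        have := Nat.find_min hex hlt
        by_contra hcon
        push Not at hcon
        refine this ⟨?_, by omega⟩
        rw [Nat.sub_add_cancel hpos]
        exact hcon
    exact ⟨Nat.find hex, (hA _).2 ⟨hj0.2, S, hS, hle, hj0.1⟩, hle, hj0.1⟩
  choose! f hf1 hf2 hf3 using key
  rw [← Finset.card_powersetCard]
  refine Finset.card_le_card_of_injOn f hf1 ?_
  intro S hS S' hS' hSS'
  rw [Finset.mem_coe] at hS hS'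
  -- closeness
  have close : ∀ S ∈ Finset.powersetCard F B, ∀ S' ∈ Finset.powersetCard F B, f S = f S' →
      ((∏ p ∈ S', p : ℕ) : ℝ) < ((∏ p ∈ S, p : ℕ) : ℝ) + 1 := by
    intro S hS S' hS' h
    have h1 := hf3 S hS
    have h2 := hf2 S' hS'
    rw [← h] at h2
    have hW : 0 < V * (1 + w) ^ (f S) := by positivity
    have h3 : ((∏ p ∈ S', p : ℕ) : ℝ) * (V * (1 + w) ^ (f S)) <
        (((∏ p ∈ S, p : ℕ) : ℝ) * (1 + w)) * (V * (1 + w) ^ (f S)) := by
      calc _ ≤ x := h2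
        _ < _ := h1
        _ = _ := by rw [pow_succ]; ring
    have h4 := lt_of_mul_lt_mul_right h3 hW.le
    have h5 : ((∏ p ∈ S, p : ℕ) : ℝ) * w ≤ 1 := by
      calc ((∏ p ∈ S, p : ℕ) : ℝ) * w ≤ (4 * (T : ℝ)) ^ F * w := by
            have := (prod_bounds F T B hB S hS).2
            gcongr
        _ = 1 := by rw [hw]; field_simp
    nlinarith
  have h1 := close S hS S' hS' hSS'
  have h2 := close S' hS' S hS hSS'.symm
  have h1' : (∏ p ∈ S', p : ℕ) < (∏ p ∈ S, p : ℕ) + 1 := by exact_mod_cast h1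
  have h2' : (∏ p ∈ S, p : ℕ) < (∏ p ∈ S', p : ℕ) + 1 := by exact_mod_cast h2
  have heq : (∏ p ∈ S, p : ℕ) = (∏ p ∈ S', p : ℕ) := by omega
  have e1 : (∏ p ∈ S, p).primeFactors = S :=
    Nat.primeFactors_prod fun p hp => (hB p ((Finset.mem_powersetCard.1 hS).1 hp)).1
  have e2 : (∏ p ∈ S', p).primeFactors = S' :=
    Nat.primeFactors_prod fun p hp => (hB p ((Finset.mem_powersetCard.1 hS').1 hp)).1
  rw [← e1, ← e2, heq]


/-- Every element of a finite set `X` of reals in one octave is a product of `F` elements of `B`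
times one of few scales `W`, up to a relative error `(4T)^{-F}`. -/
theorem coverage (F : ℕ) (hF : 1 ≤ F) : ∃ c : ℝ, 0 < c ∧ ∀ (T : ℕ) (B : Finset ℕ), 1 ≤ T →
    (∀ b ∈ B, b.Prime ∧ T < b ∧ b ≤ 4 * T) → F ≤ B.card →
    ∀ (a : ℝ), 0 < a → ∀ X : Finset ℝ, (∀ x ∈ X, a ≤ x ∧ x ≤ 2 * a) →
    ∃ Ws : Finset ℝ,
      ((Ws.card : ℝ) ≤ c * ((T : ℝ) / B.card) ^ F * (Real.log (X.card + 1) + 1)) ∧
      (∀ W ∈ Ws, a / (4 * (T : ℝ)) ^ F ≤ W ∧ W ≤ 2 * a / (T : ℝ) ^ F) ∧
      ∀ x ∈ X, ∃ W ∈ Ws, ∃ b : Fin F → B, (∏ i, ((b i : ℕ) : ℝ)) * W ≤ x ∧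
        x ≤ (∏ i, ((b i : ℕ) : ℝ)) * W * (1 + 1 / (4 * (T : ℝ)) ^ F) := by
  classical
  refine ⟨2 * ((2 * F + 2) * 4 ^ F * ((F : ℝ) ^ F * (F.factorial : ℝ)) + 3 ^ F), by positivity, ?_⟩
  intro T B hT hB hFB a ha X hX
  have hT0 : (0 : ℝ) < T := by exact_mod_cast hT
  set K : ℕ := (2 * F + 2) * (4 * T) ^ F with hK
  have hKpos : 0 < K := by positivity
  set w : ℝ := 1 / (4 * (T : ℝ)) ^ F with hw
  have hw0 : 0 < w := by positivity
  set V : ℝ := a / (4 * (T : ℝ)) ^ F with hV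
  have hV0 : 0 < V := by positivity
  set C : ℕ := B.card.choose F with hC
  have hCpos : 0 < C := Nat.choose_pos hFB
  let h : ℝ → ℕ → Prop := fun x j => ∃ S ∈ Finset.powersetCard F B,
      ((∏ p ∈ S, p : ℕ) : ℝ) * (V * (1 + w) ^ j) ≤ x ∧
      x < ((∏ p ∈ S, p : ℕ) : ℝ) * (V * (1 + w) ^ (j + 1))
  set k0 : ℕ := K / C + 1 with hk0
  set l : ℕ := Nat.log 2 X.card + 1 with hl
  have hmany : ∀ x ∈ X, (Finset.range K).card ≤ k0 * ((Finset.range K).filter (h x)).card := by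
    intro x hx
    have := many_scales F hF T B hT hB a ha x (hX x hx).1 (hX x hx).2
      ((Finset.range K).filter (h x)) (by
        intro j
        rw [Finset.mem_filter, Finset.mem_range])
    rw [Finset.card_range]
    calc K ≤ k0 * C := by
          rw [hk0]
          have := Nat.lt_div_mul_add (a := K) hCpos
          rw [add_mul, one_mul]
          exact this.le
      _ ≤ _ := Nat.mul_le_mul_left _ this
  obtain ⟨J, hJ, hJc, hJcov⟩ := greedy_cover (Finset.range K) X h k0 l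
    (Finset.nonempty_range_iff.2 hKpos.ne') (Nat.lt_pow_succ_log_self (by norm_num) _)
    (fun x hx => by convert hmany x hx)
  let J' := J.filter fun j => ∃ x ∈ X, h x j
  refine ⟨J'.image fun j => V * (1 + w) ^ j, ?_, ?_, ?_⟩
  · have hn0 : (0 : ℝ) < B.card := by
      exact_mod_cast (lt_of_lt_of_le hF hFB)
    have hn3 : (B.card : ℝ) ≤ 3 * T := by
      have h1 : B ⊆ Finset.Ioc T (4 * T) := fun b hb =>
        Finset.mem_Ioc.2 ⟨(hB b hb).2.1, (hB b hb).2.2⟩
      have h2 := Finset.card_le_card h1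
      rw [Nat.card_Ioc] at h2
      have : B.card ≤ 3 * T := by omega
      exact_mod_cast this
    have hc1 : (((J'.image fun j => V * (1 + w) ^ j).card : ℕ) : ℝ) ≤ (k0 : ℝ) * l := by
      have : (J'.image fun j => V * (1 + w) ^ j).card ≤ k0 * l :=
        Finset.card_image_le.trans ((Finset.card_filter_le _ _).trans hJc)
      exact_mod_cast this
    have hratio : (1 : ℝ) ≤ 3 ^ F * ((T : ℝ) / B.card) ^ F := by
      rw [← mul_pow]
      apply one_le_pow₀
      rw [mul_div_assoc', le_div_iff₀ hn0]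
      linarith
    have hk : (k0 : ℝ) ≤ ((2 * F + 2) * 4 ^ F * ((F : ℝ) ^ F * (F.factorial : ℝ)) + 3 ^ F) *
        ((T : ℝ) / B.card) ^ F := by
      have h1 : ((K / C : ℕ) : ℝ) ≤ (K : ℝ) / C := Nat.cast_div_le
      have h2 : (K : ℝ) / C ≤ (2 * F + 2) * 4 ^ F * ((F : ℝ) ^ F * (F.factorial : ℝ)) *
          ((T : ℝ) / B.card) ^ F := by
        have h3 := pow_le_choose_real F B.card hF hFB
        rw [← hC] at h3
        have hC0 : (0 : ℝ) < C := by exact_mod_cast hCpos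
        rw [div_le_iff₀ hC0, hK]
        push_cast
        rw [div_pow, mul_pow]
        have hn : (0 : ℝ) < (B.card : ℝ) ^ F := by positivity
        calc (2 * (F : ℝ) + 2) * (4 ^ F * (T : ℝ) ^ F)
            = ((2 * (F : ℝ) + 2) * 4 ^ F * (T : ℝ) ^ F / (B.card : ℝ) ^ F) * (B.card : ℝ) ^ F := by
              field_simp
          _ ≤ ((2 * (F : ℝ) + 2) * 4 ^ F * (T : ℝ) ^ F / (B.card : ℝ) ^ F) *
                ((F : ℝ) ^ F * (F.factorial : ℝ) * (C : ℝ)) := by gcongr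
          _ = _ := by ring
      rw [hk0]
      push_cast
      rw [add_mul]
      have h4 := h1.trans h2
      linarith
    have hll : (l : ℝ) ≤ 2 * (Real.log (X.card + 1) + 1) := by
      have hlog2 : (1 : ℝ) / 2 ≤ Real.log 2 := by
        have := Real.log_two_gt_d9
        linarith
      have h1 : (Nat.log 2 X.card : ℝ) * Real.log 2 ≤ Real.log (X.card + 1) := by
        rw [← Real.log_pow]
        rcases Nat.eq_zero_or_pos X.card with h0 | hpos
        · rw [h0]; simp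
        · apply Real.log_le_log (by positivity)
          have : 2 ^ (Nat.log 2 X.card) ≤ X.card := Nat.pow_log_le_self 2 hpos.ne'
          have h2 : ((2 : ℝ) ^ (Nat.log 2 X.card)) ≤ X.card := by exact_mod_cast this
          linarith
      have h2 : (Nat.log 2 X.card : ℝ) * (1 / 2) ≤ (Nat.log 2 X.card : ℝ) * Real.log 2 := by
        gcongr
      rw [hl]
      push_cast
      linarith
    have hlog0 : 0 ≤ Real.log (X.card + 1) := Real.log_nonneg (by
      have : (0 : ℝ) ≤ X.card := by positivity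
      linarith)
    calc _ ≤ (k0 : ℝ) * l := hc1
      _ ≤ (((2 * F + 2) * 4 ^ F * ((F : ℝ) ^ F * (F.factorial : ℝ)) + 3 ^ F) *
        ((T : ℝ) / B.card) ^ F) * (2 * (Real.log (X.card + 1) + 1)) := by gcongr
      _ = _ := by ring
  · intro W hW
    obtain ⟨j, hj, rfl⟩ := Finset.mem_image.1 hW
    obtain ⟨-, x, hx, S, hS, h1, -⟩ := Finset.mem_filter.1 hj
    constructor
    · show V ≤ V * (1 + w) ^ j
      have : (1 : ℝ) ≤ (1 + w) ^ j := one_le_pow₀ (by linarith)
      nlinarith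
    · have hl := (prod_bounds F T B hB S hS).1
      have hW0 : 0 < V * (1 + w) ^ j := by positivity
      rw [le_div_iff₀ (by positivity)]
      calc V * (1 + w) ^ j * (T : ℝ) ^ F ≤ V * (1 + w) ^ j * ((∏ p ∈ S, p : ℕ) : ℝ) := by gcongr
        _ ≤ x := by rw [mul_comm]; exact h1
        _ ≤ 2 * a := (hX x hx).2
  · intro x hx
    obtain ⟨j, hj, hxj⟩ := hJcov x hx
    obtain ⟨S, hS, h1, h2⟩ := id hxj
    refine ⟨V * (1 + w) ^ j, Finset.mem_image.2 ⟨j, Finset.mem_filter.2 ⟨hj, x, hx, hxj⟩, rfl⟩, ?_⟩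
    obtain ⟨hSB, hSc⟩ := Finset.mem_powersetCard.1 hS
    refine ⟨fun i => ⟨(S.orderIsoOfFin hSc i : ℕ), hSB (S.orderIsoOfFin hSc i).2⟩, ?_⟩
    have hprod : (∏ i : Fin F, (((S.orderIsoOfFin hSc i : ℕ)) : ℝ)) = ((∏ p ∈ S, p : ℕ) : ℝ) := by
      push_cast
      rw [← Finset.prod_coe_sort S (fun p => (p : ℝ))]
      exact Fintype.prod_equiv (S.orderIsoOfFin hSc).toEquiv _ _ (fun i => rfl)
    simp only []
    rw [hprod]
    refine ⟨h1, h2.le.trans (le_of_eq ?_)⟩
    rw [pow_succ]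
    ring

end Pool.Agent.Helper21.Pin
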