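import Mathlib

/-!
Pinwheel scheduling (MP_917099_lc): definitions shared by the modules of the near-optimal threshold.
-/

namespace Pool.Agent.Helper21.Pin

/-- The integer instance `x` is schedulable (days on which nothing is done are allowed). -/
def Sched {ι : Type} (x : ι → ℕ) : Prop :=
  ∃ S : ℤ → Option ι, ∀ i, ∀ m : ℤ, ∃ t : ℤ, m ≤ t ∧ t < m + (x i : ℤ) ∧ S t = some i

/-- `Host s p A`: a channel which has one slot every `p` days can host all tasks of `A`,
task `i` having real period `s i`. The slots of the channel are numbered by `ℤ`. -/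
def Host {ι : Type} (s : ι → ℝ) (p : ℝ) (A : Finset ι) : Prop :=
  ∃ σ : ℤ → Option ι, ∀ i ∈ A, ∀ m : ℤ, ∃ n : ℤ,
    m ≤ n ∧ ((n - m + 1 : ℤ) : ℝ) * p ≤ s i ∧ σ n = some i

/-- A channel of real period `p` together with the tasks it hosts. -/
structure Node {ι : Type} (s : ι → ℝ) where
  p : ℝ
  A : Finset ι
  pos : 0 < p
  dens : ∑ i ∈ A, 1 / s i ≤ 1 / p
  host : Host s p A

/-- Total density of a list of channels. -/
noncomputable def D {ι : Type} {s : ι → ℝ} (l : List (Node s)) : ℝ :=
  (l.map fun nd => 1 / nd.p).sum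

/-- Task `i` is hosted by some channel of the list. -/
def Cov {ι : Type} {s : ι → ℝ} (l : List (Node s)) (i : ι) : Prop := ∃ nd ∈ l, i ∈ nd.A

end Pool.Agent.Helper21.Pin
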