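import Pool.Agent.Helper21.Pin.Defs

namespace Pool.Agent.Helper21.Pin

/-- Interval windows: Hall's condition for intervals implies Hall's condition. -/
private lemma hall_union {α : Type} (w : α → ℤ) (J : ℕ) (S : Finset α)
    (hint : ∀ p q : ℤ, p ≤ q →
      ((S.filter fun x => p ≤ w x ∧ w x + J ≤ q).card : ℤ) ≤ q - p + 1) (n : ℕ) :
    ∀ U : Finset ℤ, U.card ≤ n →
      (S.filter fun x => Finset.Icc (w x) (w x + J) ⊆ U).card ≤ U.card := by
  classical
  induction n with
  | zero =>
    intro U hU
    have hU0 : U = ∅ := Finset.card_eq_zero.1 (by omega)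
    subst hU0
    have : (S.filter fun x => Finset.Icc (w x) (w x + J) ⊆ ∅) = ∅ := by
      refine Finset.filter_eq_empty_iff.2 fun x _ h => ?_
      have : w x ∈ Finset.Icc (w x) (w x + J) := Finset.mem_Icc.2 ⟨le_refl _, by omega⟩
      exact absurd (h this) (Finset.notMem_empty _)
    rw [this]; simp
  | succ n ih =>
    intro U hU
    rcases U.eq_empty_or_nonempty with h0 | hne
    · exact ih U (by rw [h0]; simp)
    · set p := U.min' hne with hp
      have hpU : p ∈ U := U.min'_mem hne
      -- the largest `q` with `[p, q] ⊆ U`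
      have hex : ∃ m : ℕ, p + m + 1 ∉ U := by
        by_contra hcon
        push Not at hcon
        have hmax := U.le_max' _ (hcon (U.max' hne - p).toNat)
        have h1 : p ≤ U.max' hne := U.le_max' p hpU
        have h2 : (((U.max' hne - p).toNat : ℕ) : ℤ) = U.max' hne - p := Int.toNat_of_nonneg (by omega)
        omega
      have hm := Nat.find_spec hex
      set m := Nat.find hex with hmdef
      have hsub : Finset.Icc p (p + m) ⊆ U := by
        intro t ht
        rw [Finset.mem_Icc] at ht
        rcases eq_or_lt_of_le ht.1 with h | h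
        · rw [← h]; exact hpU
        · have hlt : (t - p - 1).toNat < m := by omega
          have := Nat.find_min hex hlt
          rw [not_not] at this
          have h3 : p + (((t - p - 1).toNat : ℕ) : ℤ) + 1 = t := by
            have : (((t - p - 1).toNat : ℕ) : ℤ) = t - p - 1 := Int.toNat_of_nonneg (by omega)
            rw [this]; ring
          rwa [h3] at this
      set U1 := Finset.Icc p (p + (m : ℤ)) with hU1
      have hcard1 : (U1.card : ℤ) = m + 1 := by
        rw [hU1, Int.card_Icc, Int.toNat_of_nonneg (by omega)]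
        ring
      have hc : U1.card + (U \ U1).card = U.card := by
        have := Finset.card_sdiff_add_card_eq_card hsub
        omega
      have h1 : (S.filter fun x => Finset.Icc (w x) (w x + J) ⊆ U) ⊆
          (S.filter fun x => p ≤ w x ∧ w x + J ≤ p + m) ∪
          (S.filter fun x => Finset.Icc (w x) (w x + J) ⊆ U \ U1) := by
        intro x hx
        obtain ⟨hxS, hxU⟩ := Finset.mem_filter.1 hx
        have hwU : w x ∈ U := hxU (Finset.mem_Icc.2 ⟨le_refl _, by omega⟩)
        have hpw : p ≤ w x := U.min'_le _ hwU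
        rw [Finset.mem_union]
        rcases le_or_gt (w x) (p + m) with h | h
        · left
          refine Finset.mem_filter.2 ⟨hxS, hpw, ?_⟩
          by_contra hcon
          push Not at hcon
          exact hm (hxU (Finset.mem_Icc.2 ⟨by omega, by omega⟩))
        · right
          refine Finset.mem_filter.2 ⟨hxS, fun t ht => ?_⟩
          rw [Finset.mem_sdiff]
          refine ⟨hxU ht, fun hcon => ?_⟩
          rw [hU1, Finset.mem_Icc] at hcon
          rw [Finset.mem_Icc] at ht
          omega
      have h2 := hint p (p + m) (by omega)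
      have h3 := ih (U \ U1) (by omega)
      have h4 := (Finset.card_le_card h1).trans (Finset.card_union_le _ _)
      omega

private lemma floor_window (k H : ℕ) (hk : 1 ≤ k) (hH : 1 ≤ H) (j p q n : ℤ) :
    (p ≤ (j + n * H) / (k : ℤ) ∧ (j + n * H) / (k : ℤ) < q) ↔
      n ∈ Finset.Ioc ((p * k - 1 - j) / (H : ℤ)) ((q * k - 1 - j) / (H : ℤ)) := by
  have hk0 : (0 : ℤ) < k := by exact_mod_cast hk
  have hH0 : (0 : ℤ) < H := by exact_mod_cast hH
  rw [Finset.mem_Ioc, Int.le_ediv_iff_mul_le hk0, Int.ediv_lt_iff_lt_mul hk0,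
    Int.ediv_lt_iff_lt_mul hH0, Int.le_ediv_iff_mul_le hH0]
  constructor <;> rintro ⟨h1, h2⟩ <;> constructor <;> linarith

/-- Hall's theorem for combs. Comb `r` has its points at the times `(j r + n * H) / k r`, `n : ℤ`.
The integer floor division counts: `(q*k-1-j)/H - (p*k-1-j)/H` is the number of `n`
with `p*k ≤ j + n*H < q*k`, i.e. the number of points in `[p,q)`. -/
theorem hall_slots (N : ℕ) (k : Fin N → ℕ) (H J : ℕ) (j : Fin N → ℤ)
    (hk : ∀ r, 1 ≤ k r) (hH : 1 ≤ H)
    (hdisc : ∀ p q : ℤ, p ≤ q →
      ∑ r, ((q * k r - 1 - j r) / (H : ℤ) - (p * k r - 1 - j r) / (H : ℤ)) ≤ (q - p) + J) :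
    ∃ f : Fin N × ℤ → ℤ, Function.Injective f ∧
      ∀ r n, (j r + n * H) / (k r : ℤ) ≤ f (r, n) ∧ f (r, n) ≤ (j r + n * H) / (k r : ℤ) + J := by
  classical
  have hH0 : (0 : ℤ) < H := by exact_mod_cast hH
  let w : Fin N × ℤ → ℤ := fun x => (j x.1 + x.2 * H) / (k x.1 : ℤ)
  have hall : ∀ S : Finset (Fin N × ℤ),
      S.card ≤ (S.biUnion fun x => Finset.Icc (w x) (w x + J)).card := by
    intro S
    have hint : ∀ p q : ℤ, p ≤ q →
        ((S.filter fun x => p ≤ w x ∧ w x + J ≤ q).card : ℤ) ≤ q - p + 1 := by
      intro p q hpq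
      rcases le_or_gt p (q - J + 1) with h | h
      · have hsub : (S.filter fun x => p ≤ w x ∧ w x + J ≤ q) ⊆
            Finset.univ.biUnion fun r : Fin N =>
              (Finset.Ioc ((p * k r - 1 - j r) / (H : ℤ))
                (((q - J + 1) * k r - 1 - j r) / (H : ℤ))).image fun n => (r, n) := by
          rintro ⟨r, n⟩ hx
          obtain ⟨-, h1, h2⟩ := Finset.mem_filter.1 hx
          refine Finset.mem_biUnion.2 ⟨r, Finset.mem_univ _, Finset.mem_image.2 ⟨n, ?_, rfl⟩⟩
          rw [← floor_window (k r) H (hk r) hH (j r) p (q - J + 1) n]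
          exact ⟨h1, by
            have : w (r, n) + J ≤ q := h2
            show w (r, n) < q - J + 1
            omega⟩
        have hcard := (Finset.card_le_card hsub).trans Finset.card_biUnion_le
        have hmono : ∀ r : Fin N, (p * k r - 1 - j r) / (H : ℤ) ≤
            ((q - J + 1) * k r - 1 - j r) / (H : ℤ) := by
          intro r
          apply Int.ediv_le_ediv hH0
          have : (0 : ℤ) ≤ k r := by positivity
          nlinarith
        have h2 : ((∑ r : Fin N, ((Finset.Ioc ((p * k r - 1 - j r) / (H : ℤ))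
                (((q - J + 1) * k r - 1 - j r) / (H : ℤ))).image fun n => (r, n)).card : ℕ) : ℤ) ≤
            ∑ r, (((q - J + 1) * k r - 1 - j r) / (H : ℤ) - (p * k r - 1 - j r) / (H : ℤ)) := by
          push_cast
          refine Finset.sum_le_sum fun r _ => ?_
          refine (Int.ofNat_le.2 Finset.card_image_le).trans ?_
          rw [Int.card_Ioc, Int.toNat_of_nonneg (by linarith [hmono r])]
        have h3 := hdisc p (q - J + 1) h
        have h4 : ((S.filter fun x => p ≤ w x ∧ w x + J ≤ q).card : ℤ) ≤
            ((∑ r : Fin N, ((Finset.Ioc ((p * k r - 1 - j r) / (H : ℤ))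
                (((q - J + 1) * k r - 1 - j r) / (H : ℤ))).image fun n => (r, n)).card : ℕ) : ℤ) := by
          exact_mod_cast hcard
        linarith
      · have : (S.filter fun x => p ≤ w x ∧ w x + J ≤ q) = ∅ := by
          refine Finset.filter_eq_empty_iff.2 fun x _ hx => ?_
          omega
        rw [this, Finset.card_empty]
        push_cast
        omega
    have := hall_union w J S hint _ (S.biUnion fun x => Finset.Icc (w x) (w x + J)) le_rfl
    refine le_trans (Finset.card_le_card ?_) this
    intro x hx
    refine Finset.mem_filter.2 ⟨hx, ?_⟩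
    exact Finset.subset_biUnion_of_mem (fun x => Finset.Icc (w x) (w x + (J : ℤ))) hx
  obtain ⟨f, hf, hfx⟩ := (Finset.all_card_le_biUnion_card_iff_exists_injective _).1 hall
  exact ⟨f, hf, fun r n => Finset.mem_Icc.1 (hfx (r, n))⟩

end Pool.Agent.Helper21.Pin
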