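import Pool.Agent.Helper21.Pin.Defs

namespace Pool.Agent.Helper21.Pin

/-- Hermite: one more unit on top. -/
private lemma sum_floor_succ (H : ℕ) (hH : 1 ≤ H) (m : ℤ) :
    ∑ h ∈ Finset.range H, (m + 1 - h) / (H : ℤ) = ∑ h ∈ Finset.range H, (m - h) / (H : ℤ) + 1 := by
  obtain ⟨g, rfl⟩ : ∃ g, H = g + 1 := ⟨H - 1, by omega⟩
  rw [Finset.sum_range_succ', Finset.sum_range_succ]
  have e1 : ∀ h ∈ Finset.range g, (m + 1 - ((h + 1 : ℕ) : ℤ)) / ((g + 1 : ℕ) : ℤ) =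
      (m - (h : ℤ)) / ((g + 1 : ℕ) : ℤ) := by
    intro h _
    congr 1
    push_cast; ring
  rw [Finset.sum_congr rfl e1]
  have e2 : (m + 1 - ((0 : ℕ) : ℤ)) / ((g + 1 : ℕ) : ℤ) = (m - (g : ℤ)) / ((g + 1 : ℕ) : ℤ) + 1 := by
    have : m + 1 - ((0 : ℕ) : ℤ) = (m - (g : ℤ)) + 1 * ((g + 1 : ℕ) : ℤ) := by push_cast; ring
    rw [this, Int.add_mul_ediv_right _ _ (by positivity)]
  rw [e2]
  ring

private lemma sum_floor_add (H : ℕ) (hH : 1 ≤ H) (m : ℤ) (d : ℕ) :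
    ∑ h ∈ Finset.range H, (m + d - h) / (H : ℤ) = ∑ h ∈ Finset.range H, (m - h) / (H : ℤ) + d := by
  induction d with
  | zero => simp
  | succ d ih =>
    have := sum_floor_succ H hH (m + d)
    push_cast
    rw [show m + ((d : ℤ) + 1) = m + d + 1 by ring, this, ih]
    ring

/-- The discrepancy of one comb. -/
noncomputable def Yd (H k : ℕ) (p L : ℕ) (h : ℕ) : ℝ :=
  ((((p + L : ℤ) * k - 1 - h) / (H : ℤ) - ((p : ℤ) * k - 1 - h) / (H : ℤ) : ℤ) : ℝ) - L * k / H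

private lemma sum_Yd (H k p L : ℕ) (hH : 1 ≤ H) : ∑ h ∈ Finset.range H, Yd H k p L h = 0 := by
  have hH0 : (H : ℝ) ≠ 0 := by
    have : (0 : ℝ) < H := by exact_mod_cast hH
    exact this.ne'
  unfold Yd
  rw [Finset.sum_sub_distrib, Finset.sum_const, Finset.card_range, nsmul_eq_mul,
    ← Int.cast_sum, Finset.sum_sub_distrib]
  have h1 := sum_floor_add H hH ((p : ℤ) * k - 1) (L * k)
  have e : ∀ h : ℕ, ((p + L : ℤ) * k - 1 - h) / (H : ℤ) =
      ((p : ℤ) * k - 1 + ((L * k : ℕ) : ℤ) - h) / (H : ℤ) := by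
    intro h; congr 1; push_cast; ring
  simp only [e]
  rw [h1, add_sub_cancel_left]
  push_cast
  field_simp
  ring

private lemma abs_Yd (H k p L h : ℕ) (hH : 1 ≤ H) : |Yd H k p L h| ≤ 1 := by
  have hH0 : (0 : ℝ) < H := by exact_mod_cast hH
  have hHz : (0 : ℤ) < H := by exact_mod_cast hH
  unfold Yd
  set A : ℤ := ((p + L : ℤ) * k - 1 - h) / (H : ℤ) with hA
  set B : ℤ := ((p : ℤ) * k - 1 - h) / (H : ℤ) with hB
  have a1 : A * H ≤ (p + L : ℤ) * k - 1 - h := Int.ediv_mul_le _ hHz.ne'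
  have a2 : (p + L : ℤ) * k - 1 - h < (A + 1) * H := Int.lt_ediv_add_one_mul_self _ hHz
  have b1 : B * H ≤ (p : ℤ) * k - 1 - h := Int.ediv_mul_le _ hHz.ne'
  have b2 : (p : ℤ) * k - 1 - h < (B + 1) * H := Int.lt_ediv_add_one_mul_self _ hHz
  have c1 : (A - B) * H ≤ L * k + H := by nlinarith
  have c2 : (L : ℤ) * k - H ≤ (A - B) * H := by nlinarith
  have c1' : ((A - B : ℤ) : ℝ) * H ≤ L * k + H := by exact_mod_cast c1
  have c2' : (L : ℝ) * k - H ≤ ((A - B : ℤ) : ℝ) * H := by exact_mod_cast c2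
  rw [abs_le]
  constructor
  · have : (L : ℝ) * k / H ≤ ((A - B : ℤ) : ℝ) + 1 := by
      rw [div_le_iff₀ hH0]; linarith
    linarith
  · have : ((A - B : ℤ) : ℝ) - 1 ≤ (L : ℝ) * k / H := by
      rw [le_div_iff₀ hH0]; linarith
    linarith

private lemma exp_le_quad {t y : ℝ} (ht0 : 0 ≤ t) (ht1 : t ≤ 1) (hy : |y| ≤ 1) :
    Real.exp (t * y) ≤ 1 + t * y + t ^ 2 := by
  have h1 : |t * y| ≤ 1 := by
    rw [abs_mul, abs_of_nonneg ht0]
    exact mul_le_one₀ ht1 (abs_nonneg _) hy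
  have h2 := Real.abs_exp_sub_one_sub_id_le h1
  have h3 := (abs_le.1 h2).2
  have h4 : (t * y) ^ 2 ≤ t ^ 2 := by
    rw [mul_pow]
    have : y ^ 2 ≤ 1 := by
      rw [← sq_abs]; exact pow_le_one₀ (abs_nonneg _) hy
    nlinarith [sq_nonneg t]
  linarith

private lemma sum_exp_le (H k p L : ℕ) (hH : 1 ≤ H) {t : ℝ} (ht0 : 0 ≤ t) (ht1 : t ≤ 1) :
    ∑ h : Fin H, Real.exp (t * Yd H k p L h) ≤ H * (1 + t ^ 2) := by
  rw [Fin.sum_univ_eq_sum_range (fun h => Real.exp (t * Yd H k p L h))]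
  calc ∑ h ∈ Finset.range H, Real.exp (t * Yd H k p L h)
      ≤ ∑ h ∈ Finset.range H, (1 + t * Yd H k p L h + t ^ 2) :=
        Finset.sum_le_sum fun h _ => exp_le_quad ht0 ht1 (abs_Yd H k p L h hH)
    _ = H * (1 + t ^ 2) := by
        rw [Finset.sum_add_distrib, Finset.sum_add_distrib, ← Finset.mul_sum, sum_Yd H k p L hH,
          Finset.sum_const, Finset.sum_const, Finset.card_range, nsmul_eq_mul, nsmul_eq_mul]
        ring

private lemma moment (N H : ℕ) (k : Fin N → ℕ) (p L : ℕ) (hH : 1 ≤ H) {t : ℝ} (ht0 : 0 ≤ t)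
    (ht1 : t ≤ 1) :
    ∑ φ : Fin N → Fin H, Real.exp (t * ∑ r, Yd H (k r) p L (φ r)) ≤
      (H : ℝ) ^ N * Real.exp (t ^ 2 * N) := by
  have e1 : ∀ φ : Fin N → Fin H, Real.exp (t * ∑ r, Yd H (k r) p L (φ r)) =
      ∏ r, Real.exp (t * Yd H (k r) p L (φ r)) := by
    intro φ
    rw [Finset.mul_sum, Real.exp_sum]
  simp only [e1]
  have e2 := Finset.prod_univ_sum (fun _ : Fin N => (Finset.univ : Finset (Fin H)))
    (fun r h => Real.exp (t * Yd H (k r) p L h))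
  rw [Fintype.piFinset_univ] at e2
  rw [← e2]
  calc ∏ r : Fin N, ∑ h : Fin H, Real.exp (t * Yd H (k r) p L h)
      ≤ ∏ r : Fin N, (H * (1 + t ^ 2) : ℝ) :=
        Finset.prod_le_prod (fun r _ => Finset.sum_nonneg fun h _ => (Real.exp_pos _).le)
          fun r _ => sum_exp_le H (k r) p L hH ht0 ht1
    _ = (H : ℝ) ^ N * (1 + t ^ 2) ^ N := by
        rw [Finset.prod_const, Finset.card_univ, Fintype.card_fin, mul_pow]
    _ ≤ (H : ℝ) ^ N * Real.exp (t ^ 2) ^ N := by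
        have : 1 + t ^ 2 ≤ Real.exp (t ^ 2) := by
          have := Real.add_one_le_exp (t ^ 2); linarith
        gcongr
    _ = _ := by rw [← Real.exp_nat_mul, mul_comm (N : ℝ)]

/-- Random phases: some choice of phases makes the total discrepancy at most `J`. -/
theorem exists_phases (N N' : ℕ) (k : Fin N → ℕ) (H J : ℕ) (hH : 1 ≤ H) (hN : N ≤ N')
    (hN' : 1 ≤ N') (hsum : ∑ r, k r ≤ H) (hJN : J ≤ 2 * N')
    (hJ : 8 * (N' : ℝ) * Real.log (H + 1) ≤ (J : ℝ) ^ 2) :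
    ∃ j : Fin N → ℤ, ∀ p q : ℤ, p ≤ q →
      ∑ r, ((q * k r - 1 - j r) / (H : ℤ) - (p * k r - 1 - j r) / (H : ℤ)) ≤ (q - p) + J := by
  classical
  have hH0 : (0 : ℝ) < H := by exact_mod_cast hH
  have hHz : (0 : ℤ) < H := by exact_mod_cast hH
  have hN'0 : (0 : ℝ) < N' := by exact_mod_cast hN'
  set t : ℝ := J / (2 * N') with ht
  have ht0 : 0 ≤ t := by positivity
  have ht1 : t ≤ 1 := by
    rw [ht, div_le_one (by positivity)]
    exact_mod_cast hJN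
  -- the bad sets
  let bad : Fin H × Fin H → Finset (Fin N → Fin H) := fun x =>
    Finset.univ.filter fun φ => (J : ℝ) < ∑ r, Yd H (k r) x.1 x.2 (φ r)
  have hbad : ∀ x, ((bad x).card : ℝ) ≤ (H : ℝ) ^ N * (1 / ((H : ℝ) + 1) ^ 2) := by
    intro x
    have h1 : ((bad x).card : ℝ) * Real.exp (t * J) ≤ (H : ℝ) ^ N * Real.exp (t ^ 2 * N) := by
      calc ((bad x).card : ℝ) * Real.exp (t * J)
          = ∑ φ ∈ bad x, Real.exp (t * J) := by rw [Finset.sum_const, nsmul_eq_mul]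
        _ ≤ ∑ φ ∈ bad x, Real.exp (t * ∑ r, Yd H (k r) x.1 x.2 (φ r)) := by
            refine Finset.sum_le_sum fun φ hφ => ?_
            apply Real.exp_le_exp.2
            exact mul_le_mul_of_nonneg_left (Finset.mem_filter.1 hφ).2.le ht0
        _ ≤ ∑ φ : Fin N → Fin H, Real.exp (t * ∑ r, Yd H (k r) x.1 x.2 (φ r)) :=
            Finset.sum_le_univ_sum_of_nonneg fun φ => (Real.exp_pos _).le
        _ ≤ _ := moment N H k x.1 x.2 hH ht0 ht1
    have h2 : Real.exp (t ^ 2 * N) ≤ Real.exp (t * J) * (1 / ((H : ℝ) + 1) ^ 2) := by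
      have e : (1 / ((H : ℝ) + 1) ^ 2) = Real.exp (-(2 * Real.log (H + 1))) := by
        rw [Real.exp_neg, show 2 * Real.log ((H : ℝ) + 1) = Real.log (((H : ℝ) + 1) ^ 2) by
          rw [Real.log_pow]; norm_num, Real.exp_log (by positivity), one_div]
      rw [e, ← Real.exp_add]
      apply Real.exp_le_exp.2
      have e2 : t ^ 2 * N ≤ t ^ 2 * N' := by
        have : (N : ℝ) ≤ N' := by exact_mod_cast hN
        gcongr
      have e3 : t * J - t ^ 2 * N' = (J : ℝ) ^ 2 / (4 * N') := by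
        rw [ht]; field_simp; ring
      have e4 : 2 * Real.log ((H : ℝ) + 1) ≤ (J : ℝ) ^ 2 / (4 * N') := by
        rw [le_div_iff₀ (by positivity)]
        linarith
      linarith
    have h3 : ((bad x).card : ℝ) * Real.exp (t * J) ≤
        ((H : ℝ) ^ N * (1 / ((H : ℝ) + 1) ^ 2)) * Real.exp (t * J) := by
      refine h1.trans ?_
      calc (H : ℝ) ^ N * Real.exp (t ^ 2 * N)
          ≤ (H : ℝ) ^ N * (Real.exp (t * J) * (1 / ((H : ℝ) + 1) ^ 2)) := by gcongr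
        _ = _ := by ring
    exact le_of_mul_le_mul_right h3 (Real.exp_pos _)
  have hex : ∃ φ : Fin N → Fin H, ∀ x, φ ∉ bad x := by
    by_contra hcon
    push Not at hcon
    have h1 : (Finset.univ : Finset (Fin N → Fin H)) ⊆ Finset.univ.biUnion bad := by
      intro φ _
      obtain ⟨x, hx⟩ := hcon φ
      exact Finset.mem_biUnion.2 ⟨x, Finset.mem_univ _, hx⟩
    have h2 := (Finset.card_le_card h1).trans Finset.card_biUnion_le
    rw [Finset.card_univ, Fintype.card_fun, Fintype.card_fin, Fintype.card_fin] at h2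
    have h3 : ((H ^ N : ℕ) : ℝ) ≤ ∑ x : Fin H × Fin H, ((bad x).card : ℝ) := by
      exact_mod_cast h2
    have h4 : ∑ x : Fin H × Fin H, ((bad x).card : ℝ) ≤
        (H : ℝ) ^ 2 * ((H : ℝ) ^ N * (1 / ((H : ℝ) + 1) ^ 2)) := by
      refine (Finset.sum_le_sum fun x _ => hbad x).trans (le_of_eq ?_)
      rw [Finset.sum_const, Finset.card_univ, Fintype.card_prod, Fintype.card_fin, nsmul_eq_mul]
      push_cast
      ring
    have h5 : (H : ℝ) ^ 2 * ((H : ℝ) ^ N * (1 / ((H : ℝ) + 1) ^ 2)) < (H : ℝ) ^ N := by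
      have hpN : (0 : ℝ) < (H : ℝ) ^ N := by positivity
      have : (H : ℝ) ^ 2 * (1 / ((H : ℝ) + 1) ^ 2) < 1 := by
        rw [mul_one_div, div_lt_one (by positivity)]
        gcongr
        linarith
      calc (H : ℝ) ^ 2 * ((H : ℝ) ^ N * (1 / ((H : ℝ) + 1) ^ 2))
          = ((H : ℝ) ^ 2 * (1 / ((H : ℝ) + 1) ^ 2)) * (H : ℝ) ^ N := by ring
        _ < 1 * (H : ℝ) ^ N := by gcongr
        _ = _ := one_mul _
    push_cast at h3
    linarith
  obtain ⟨φ, hφ⟩ := hex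
  refine ⟨fun r => ((φ r : ℕ) : ℤ), fun p q hpq => ?_⟩
  -- reduction to `0 ≤ p < H`, `0 ≤ L < H`
  set a : ℤ := p / H with ha
  set p0 : ℤ := p % H with hp0
  have hp : p = p0 + a * H := by
    have := Int.emod_add_mul_ediv p H
    rw [hp0, ha]; linarith
  have hp0' : 0 ≤ p0 ∧ p0 < H := ⟨Int.emod_nonneg _ hHz.ne', Int.emod_lt_of_pos _ hHz⟩
  set c : ℤ := (q - p) / H with hc
  set L : ℤ := (q - p) % H with hL
  have hq : q = p + L + c * H := by
    have := Int.emod_add_mul_ediv (q - p) H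
    rw [hL, hc]; linarith
  have hL' : 0 ≤ L ∧ L < H := ⟨Int.emod_nonneg _ hHz.ne', Int.emod_lt_of_pos _ hHz⟩
  have hc0 : 0 ≤ c := Int.ediv_nonneg (by linarith) hHz.le
  obtain ⟨p1, hp1⟩ := Int.eq_ofNat_of_zero_le hp0'.1
  obtain ⟨L1, hL1⟩ := Int.eq_ofNat_of_zero_le hL'.1
  have hp1H : p1 < H := by
    have := hp0'.2; rw [hp1] at this; exact_mod_cast this
  have hL1H : L1 < H := by
    have := hL'.2; rw [hL1] at this; exact_mod_cast this
  have hgood := hφ (⟨p1, hp1H⟩, ⟨L1, hL1H⟩)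
  have hgood' : ∑ r, Yd H (k r) p1 L1 (φ r) ≤ J := by
    by_contra hcon
    push Not at hcon
    exact hgood (Finset.mem_filter.2 ⟨Finset.mem_univ _, hcon⟩)
  have hterm : ∀ r : Fin N, (q * k r - 1 - ((φ r : ℕ) : ℤ)) / (H : ℤ) -
      (p * k r - 1 - ((φ r : ℕ) : ℤ)) / (H : ℤ) =
      (((p1 + L1 : ℤ) * k r - 1 - ((φ r : ℕ) : ℤ)) / (H : ℤ) -
        ((p1 : ℤ) * k r - 1 - ((φ r : ℕ) : ℤ)) / (H : ℤ)) + c * k r := by
    intro r
    have e1 : q * k r - 1 - ((φ r : ℕ) : ℤ) =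
        ((p1 + L1 : ℤ) * k r - 1 - ((φ r : ℕ) : ℤ)) + ((a + c) * k r) * H := by
      rw [hq, hp, hp1, hL1]; ring
    have e2 : p * k r - 1 - ((φ r : ℕ) : ℤ) =
        ((p1 : ℤ) * k r - 1 - ((φ r : ℕ) : ℤ)) + (a * k r) * H := by
      rw [hp, hp1]; ring
    rw [e1, e2, Int.add_mul_ediv_right _ _ hHz.ne', Int.add_mul_ediv_right _ _ hHz.ne']
    ring
  simp only [hterm]
  rw [Finset.sum_add_distrib, ← Finset.mul_sum]
  have hX : ∑ r : Fin N, (((p1 + L1 : ℤ) * k r - 1 - ((φ r : ℕ) : ℤ)) / (H : ℤ) -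
        ((p1 : ℤ) * k r - 1 - ((φ r : ℕ) : ℤ)) / (H : ℤ)) ≤ L1 + J := by
    have h1 : ((∑ r : Fin N, (((p1 + L1 : ℤ) * k r - 1 - ((φ r : ℕ) : ℤ)) / (H : ℤ) -
        ((p1 : ℤ) * k r - 1 - ((φ r : ℕ) : ℤ)) / (H : ℤ)) : ℤ) : ℝ) =
        ∑ r, Yd H (k r) p1 L1 (φ r) + L1 * (∑ r, (k r : ℝ)) / H := by
      rw [Int.cast_sum, mul_div_assoc, Finset.sum_div, Finset.mul_sum, ← Finset.sum_add_distrib]
      refine Finset.sum_congr rfl fun r _ => ?_
      unfold Yd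
      ring
    have h2 : (∑ r, (k r : ℝ)) ≤ H := by exact_mod_cast hsum
    have h3 : (L1 : ℝ) * (∑ r, (k r : ℝ)) / H ≤ L1 := by
      rw [div_le_iff₀ hH0]
      gcongr
    have h4 : ((∑ r : Fin N, (((p1 + L1 : ℤ) * k r - 1 - ((φ r : ℕ) : ℤ)) / (H : ℤ) -
        ((p1 : ℤ) * k r - 1 - ((φ r : ℕ) : ℤ)) / (H : ℤ)) : ℤ) : ℝ) ≤ ((L1 + J : ℤ) : ℝ) := by
      rw [h1]; push_cast; linarith
    exact_mod_cast h4
  have hk : c * ∑ r : Fin N, (k r : ℤ) ≤ c * H := by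
    apply mul_le_mul_of_nonneg_left _ hc0
    exact_mod_cast hsum
  have : q - p = L1 + c * H := by rw [hq, hL1]; ring
  linarith

end Pool.Agent.Helper21.Pin
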