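import Pool.Agent.Helper21.Pin.Hall
import Pool.Agent.Helper21.Pin.Phases

namespace Pool.Agent.Helper21.Pin

/-- From channels to a schedule. -/
theorem sched_of_nodes {ι : Type} (x : ι → ℕ) (J : ℕ) (s : ι → ℝ)
    (hs : ∀ i, s i = (x i : ℝ) - J) (l : List (Node s)) (hcov : ∀ i, Cov l i)
    (δ : ℝ) (hδ : 0 < δ) (hD : D l ≤ 1 - δ) (N' H : ℕ) (hN' : 1 ≤ N') (hl : l.length ≤ N')
    (hH1 : 1 ≤ H) (hH : (l.length : ℝ) ≤ δ * H) (hJN : J ≤ 2 * N')
    (hJ : 8 * (N' : ℝ) * Real.log (H + 1) ≤ (J : ℝ) ^ 2) : Sched x := by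
  classical
  have hH0 : (0 : ℝ) < H := by exact_mod_cast hH1
  have hHz : (0 : ℤ) < H := by exact_mod_cast hH1
  let k : Fin l.length → ℕ := fun r => ⌈(H : ℝ) / (l.get r).p⌉₊
  have hkpos : ∀ r, 1 ≤ k r := fun r => Nat.ceil_pos.2 (div_pos hH0 (l.get r).pos)
  have hkle : ∀ r, (H : ℝ) ≤ k r * (l.get r).p := by
    intro r
    have := Nat.le_ceil ((H : ℝ) / (l.get r).p)
    rwa [div_le_iff₀ (l.get r).pos] at this
  have hDsum : D l = ∑ r : Fin l.length, 1 / (l.get r).p := by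
    unfold D
    rw [← List.sum_ofFn]
    congr 1
    apply List.ext_getElem
    · simp
    · intro i h1 h2
      simp
  have hsum : ∑ r, k r ≤ H := by
    have h1 : ((∑ r, k r : ℕ) : ℝ) ≤ H := by
      push_cast
      calc ∑ r, (k r : ℝ) ≤ ∑ r : Fin l.length, ((H : ℝ) / (l.get r).p + 1) :=
            Finset.sum_le_sum fun r _ => (Nat.ceil_lt_add_one (div_pos hH0 (l.get r).pos).le).le
        _ = H * D l + l.length := by
            rw [Finset.sum_add_distrib, hDsum, Finset.mul_sum, Finset.sum_const, Finset.card_univ,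
              Fintype.card_fin, nsmul_eq_mul, mul_one]
            congr 1
            exact Finset.sum_congr rfl fun r _ => by ring
        _ ≤ H * (1 - δ) + δ * H := by gcongr
        _ = H := by ring
    exact_mod_cast h1
  obtain ⟨j, hj⟩ := exists_phases l.length N' k H J hH1 hl hN' hsum hJN hJ
  obtain ⟨f, hf, hfw⟩ := hall_slots l.length k H J j hkpos hH1 hj
  choose σ hσ using fun r : Fin l.length => (l.get r).host
  refine ⟨fun t => if h : ∃ y : Fin l.length × ℤ, f y = t then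
    σ h.choose.1 h.choose.2 else none, ?_⟩
  intro i m
  obtain ⟨nd, hnd, hi⟩ := hcov i
  obtain ⟨r, rfl⟩ := List.get_of_mem hnd
  have hkz : (0 : ℤ) < k r := by exact_mod_cast hkpos r
  have hkr : (0 : ℝ) < k r := by exact_mod_cast hkpos r
  set n0 : ℤ := -((j r - m * k r) / (H : ℤ)) with hn0
  have e1 : m * k r ≤ j r + n0 * H := by
    have := Int.ediv_mul_le (j r - m * k r) hHz.ne'
    rw [hn0]; linarith
  have e2 : j r + n0 * H < m * k r + H := by
    have := Int.lt_ediv_add_one_mul_self (j r - m * k r) hHz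
    rw [hn0]; linarith
  obtain ⟨n, hn, hle, hsome⟩ := hσ r i hi n0
  obtain ⟨w1, w2⟩ := hfw r n
  refine ⟨f (r, n), ?_, ?_, ?_⟩
  · refine le_trans ?_ w1
    rw [Int.le_ediv_iff_mul_le hkz]
    have : n0 * H ≤ n * H := mul_le_mul_of_nonneg_right hn hHz.le
    linarith
  · have h1 : (j r + n * H) / (k r : ℤ) < m + x i - J := by
      rw [Int.ediv_lt_iff_lt_mul hkz]
      have h2 : ((j r + n * H : ℤ) : ℝ) < ((m + x i - J : ℤ) : ℝ) * k r := by
        have h3 : ((j r + n0 * H : ℤ) : ℝ) < ((m * k r + H : ℤ) : ℝ) := by exact_mod_cast e2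
        have h4 : (0 : ℝ) ≤ ((n - n0 + 1 : ℤ) : ℝ) := by
          exact_mod_cast (by omega : (0 : ℤ) ≤ n - n0 + 1)
        have h5 : ((n - n0 + 1 : ℤ) : ℝ) * H ≤ ((x i : ℝ) - J) * k r := by
          calc ((n - n0 + 1 : ℤ) : ℝ) * H ≤ ((n - n0 + 1 : ℤ) : ℝ) * (k r * (l.get r).p) :=
                mul_le_mul_of_nonneg_left (hkle r) h4
            _ = (((n - n0 + 1 : ℤ) : ℝ) * (l.get r).p) * k r := by ring
            _ ≤ s i * k r := mul_le_mul_of_nonneg_right hle hkr.le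
            _ = _ := by rw [hs]
        push_cast at h3 h5 ⊢
        nlinarith
      exact_mod_cast h2
    omega
  · have hex : ∃ y : Fin l.length × ℤ, f y = f (r, n) := ⟨(r, n), rfl⟩
    have hch : hex.choose = (r, n) := hf hex.choose_spec
    show (if h : ∃ y : Fin l.length × ℤ, f y = f (r, n) then
      σ h.choose.1 h.choose.2 else none) = some i
    rw [dif_pos hex, hch]
    exact hsome

/-- A schedulable integer instance can be run inside a channel. -/
theorem host_of_sched {ι : Type} (s : ι → ℝ) (r : ℝ) (hr : 0 < r) (A : Finset ι)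
    (h : Sched (fun i : A => ⌊s i / r⌋₊)) : Host s r A := by
  obtain ⟨S, hS⟩ := h
  refine ⟨fun n => (S n).map Subtype.val, ?_⟩
  intro i hi m
  obtain ⟨t, h1, h2, h3⟩ := hS ⟨i, hi⟩ m
  refine ⟨t, h1, ?_, by simp [h3]⟩
  simp only at h2
  have hK : 0 < ⌊s i / r⌋₊ := by omega
  have hK1 : 1 ≤ s i / r := Nat.floor_pos.1 hK
  have hfl : (⌊s i / r⌋₊ : ℝ) ≤ s i / r := Nat.floor_le (by linarith)
  have h4 : (t - m + 1 : ℤ) ≤ (⌊s i / r⌋₊ : ℤ) := by omega
  have h5 : ((t - m + 1 : ℤ) : ℝ) ≤ (⌊s i / r⌋₊ : ℝ) := by exact_mod_cast h4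
  rw [← le_div_iff₀ hr]
  exact h5.trans hfl

end Pool.Agent.Helper21.Pin
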