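import Pool.Agent.Helper21.Pin.Merge

namespace Pool.Agent.Helper21.Pin

private lemma D_flatMap {ι κ : Type} [Fintype κ] {s : ι → ℝ} (f : κ → List (Node s)) :
    D ((Finset.univ : Finset κ).toList.flatMap f) = ∑ x, D (f x) := by
  classical
  rw [← Finset.sum_map_toList]
  generalize (Finset.univ : Finset κ).toList = l
  induction l with
  | nil => simp [D]
  | cons x l ih => rw [List.flatMap_cons, D_append, ih, List.map_cons, List.sum_cons]

private lemma D_le_of_length {ι : Type} {s : ι → ℝ} {z : ℝ} (hz : 0 < z) {l : List (Node s)}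
    (hl : ∀ nd ∈ l, z ≤ nd.p) : D l ≤ l.length * (1 / z) := by
  induction l with
  | nil => simp [D]
  | cons nd l ih =>
    rw [D_cons, List.length_cons]
    have h1 := ih (fun nd' h' => hl nd' (List.mem_cons_of_mem _ h'))
    have h2 : 1 / nd.p ≤ 1 / z := one_div_le_one_div_of_le hz (hl nd (by simp))
    push_cast
    linarith

/-- The multi-level grouping. -/
theorem levels {ι : Type} {s : ι → ℝ} (B : Finset ℕ) (hB : ∀ b ∈ B, 1 ≤ b) (W ω : ℝ)
    (hW : 0 < W) (hω : 0 ≤ ω) (F : ℕ) (L : (Fin F → B) → List (Node s))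
    (hL : ∀ b, ∀ nd ∈ L b, (∏ i, ((b i : ℕ) : ℝ)) * W ≤ nd.p ∧
      nd.p ≤ (∏ i, ((b i : ℕ) : ℝ)) * W * (1 + ω)) :
    ∃ l' left : List (Node s), (∀ nd ∈ l', W ≤ nd.p ∧ nd.p ≤ W * (1 + ω)) ∧
      (∀ b i, Cov (L b) i → Cov l' i ∨ Cov left i) ∧
      (∀ nd ∈ left, W ≤ nd.p) ∧
      D l' + D left ≤ ∑ b, D (L b) +
        ω * ((B.card : ℝ) / W * ∑ j ∈ Finset.range F, (∑ b ∈ B, 1 / (b : ℝ)) ^ j) ∧
      D left ≤ (B.card : ℝ) / W * ∑ j ∈ Finset.range F, (∑ b ∈ B, 1 / (b : ℝ)) ^ j := by
  classical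
  have hb1 : ∀ b : B, (1 : ℝ) ≤ ((b : ℕ) : ℝ) := fun b => by exact_mod_cast hB b b.2
  induction F with
  | zero =>
    refine ⟨L default, [], ?_, ?_, by simp, ?_, ?_⟩
    · intro nd hnd
      simpa using hL default nd hnd
    · intro b i hi
      rw [Subsingleton.elim b default] at hi
      exact Or.inl hi
    · rw [D_nil, Fintype.sum_unique]
      simp
    · rw [D_nil]; simp
  | succ F ih =>
    -- apply exact grouping to every list
    have hP : ∀ b' : Fin F → B, (1 : ℝ) ≤ ∏ i, ((b' i : ℕ) : ℝ) := fun b' => by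
      have : ∏ i : Fin F, (1 : ℝ) ≤ ∏ i, ((b' i : ℕ) : ℝ) :=
        Finset.prod_le_prod (fun _ _ => zero_le_one) (fun i _ => hb1 (b' i))
      simpa only [Finset.prod_const_one] using this
    have hex : ∀ x : (Fin F → B) × B, ∃ l' left : List (Node s),
        (∀ nd ∈ l', (∏ i, ((x.1 i : ℕ) : ℝ)) * W ≤ nd.p ∧
          nd.p ≤ (∏ i, ((x.1 i : ℕ) : ℝ)) * W * (1 + ω)) ∧
        (∀ nd ∈ left, W ≤ nd.p) ∧
        (∀ i, Cov (L (Fin.cons x.2 x.1)) i → Cov l' i ∨ Cov left i) ∧
        D l' + D left ≤ D (L (Fin.cons x.2 x.1)) + ω * (1 / W * ∏ i, 1 / ((x.1 i : ℕ) : ℝ)) ∧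
        D left ≤ 1 / W * ∏ i, 1 / ((x.1 i : ℕ) : ℝ) := by
      rintro ⟨b', b0⟩
      simp only
      set P' : ℝ := ∏ i, ((b' i : ℕ) : ℝ) with hP'
      have hP'1 : 1 ≤ P' := hP b'
      have hP'0 : 0 < P' := by linarith
      have hb0 : (0 : ℝ) < ((b0 : ℕ) : ℝ) := lt_of_lt_of_le one_pos (hb1 b0)
      have hprod : (∏ i, (((Fin.cons b0 b' : Fin (F + 1) → B) i : ℕ) : ℝ)) = (b0 : ℕ) * P' := by
        rw [Fin.prod_univ_succ]
        simp [hP']
      have hinv : ∏ i, 1 / ((b' i : ℕ) : ℝ) = 1 / P' := by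
        rw [Finset.prod_div_distrib]; simp [hP']
      set z : ℝ := (b0 : ℕ) * P' * W with hz
      have hz0 : 0 < z := by positivity
      obtain ⟨l', left, h1, h2, h3, h4, h5⟩ := group_exact (s := s) (b0 : ℕ) (hB b0 b0.2) z
        (z * (1 + ω)) hz0 (by nlinarith) (L (Fin.cons b0 b')) (by
          intro nd hnd
          have := hL (Fin.cons b0 b') nd hnd
          rw [hprod] at this
          exact this)
      have hzb : z / (b0 : ℕ) = P' * W := by
        rw [hz]; field_simp
      have hzb' : z * (1 + ω) / (b0 : ℕ) = P' * W * (1 + ω) := by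
        rw [hz]; field_simp
      have hleft : ∀ nd ∈ left, z ≤ nd.p := by
        intro nd hnd
        have := hL (Fin.cons b0 b') nd (h2 nd hnd)
        rw [hprod] at this
        exact this.1
      refine ⟨l', left, ?_, ?_, h4, ?_, ?_⟩
      · intro nd hnd
        have := h1 nd hnd
        rw [hzb, hzb'] at this
        exact this
      · intro nd hnd
        refine le_trans ?_ (hleft nd hnd)
        rw [hz]
        have : 1 ≤ ((b0 : ℕ) : ℝ) * P' := one_le_mul_of_one_le_of_one_le (hb1 b0) hP'1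
        nlinarith
      · refine h5.trans ?_
        rw [hinv]
        have e : ((b0 : ℕ) : ℝ) * (1 / z - 1 / (z * (1 + ω))) =
            (1 / W * (1 / P')) * (ω / (1 + ω)) := by
          rw [hz]; field_simp; ring
        have e2 : ω / (1 + ω) ≤ ω := by
          rw [div_le_iff₀ (by linarith)]; nlinarith
        have e3 : (1 / W * (1 / P')) * (ω / (1 + ω)) ≤ (1 / W * (1 / P')) * ω := by gcongr
        linarith
      · refine (D_le_of_length hz0 hleft).trans ?_
        rw [hinv]
        have hlen : (left.length : ℝ) ≤ (b0 : ℕ) := by exact_mod_cast h3.le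
        calc (left.length : ℝ) * (1 / z) ≤ (b0 : ℕ) * (1 / z) := by gcongr
          _ = 1 / W * (1 / P') := by rw [hz]; field_simp
    choose l1 left1 g1 g2 g3 g4 g5 using hex
    let L' : (Fin F → B) → List (Node s) := fun b' =>
      (Finset.univ : Finset B).toList.flatMap fun b0 => l1 (b', b0)
    obtain ⟨l', left, f1, f2, f3, f4, f5⟩ := ih L' (by
      intro b' nd hnd
      obtain ⟨b0, -, hb0⟩ := List.mem_flatMap.1 hnd
      exact g1 (b', b0) nd hb0)
    let left2 : List (Node s) :=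
      (Finset.univ : Finset ((Fin F → B) × B)).toList.flatMap fun x => left1 x
    have hD2 : D left2 = ∑ x, D (left1 x) := D_flatMap _
    have hDL' : ∑ b', D (L' b') = ∑ x, D (l1 x) := by
      rw [Fintype.sum_prod_type]
      exact Finset.sum_congr rfl fun b' _ => D_flatMap _
    have hkappa : ∑ x : (Fin F → B) × B, (1 / W * ∏ i, 1 / ((x.1 i : ℕ) : ℝ)) =
        (B.card : ℝ) / W * (∑ b ∈ B, 1 / (b : ℝ)) ^ F := by
      rw [Fintype.sum_prod_type]
      simp only [Finset.sum_const, Finset.card_univ, Fintype.card_coe, nsmul_eq_mul]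
      rw [← Finset.mul_sum, ← Finset.mul_sum]
      have := Finset.prod_univ_sum (fun _ : Fin F => (Finset.univ : Finset B))
        (fun _ b => 1 / ((b : ℕ) : ℝ))
      rw [Fintype.piFinset_univ] at this
      rw [← this, Finset.prod_const, Finset.card_univ, Fintype.card_fin,
        Finset.sum_coe_sort B (fun b => 1 / (b : ℝ))]
      ring
    have hcons : ∑ x : (Fin F → B) × B, D (L (Fin.cons x.2 x.1)) = ∑ b, D (L b) := by
      exact Fintype.sum_equiv ((Equiv.prodComm _ _).trans (Fin.consEquiv fun _ => B)) _ _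
        (fun x => rfl)
    have hsum1 : ∑ x, D (l1 x) + ∑ x, D (left1 x) ≤ ∑ b, D (L b) +
        ω * ((B.card : ℝ) / W * (∑ b ∈ B, 1 / (b : ℝ)) ^ F) := by
      rw [← Finset.sum_add_distrib, ← hcons, ← hkappa, Finset.mul_sum, ← Finset.sum_add_distrib]
      exact Finset.sum_le_sum fun x _ => g4 x
    have hsum2 : ∑ x, D (left1 x) ≤ (B.card : ℝ) / W * (∑ b ∈ B, 1 / (b : ℝ)) ^ F := by
      rw [← hkappa]
      exact Finset.sum_le_sum fun x _ => g5 x
    refine ⟨l', left ++ left2, f1, ?_, ?_, ?_, ?_⟩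
    · intro b i hi
      have hb : b = Fin.cons (b 0) (fun i => b i.succ) := by
        funext j
        refine Fin.cases ?_ (fun j => ?_) j <;> simp
      rw [hb] at hi
      rcases g3 (fun i => b i.succ, b 0) i hi with h | ⟨nd, h, hh⟩
      · have : Cov (L' fun i => b i.succ) i := by
          obtain ⟨nd, h, hh⟩ := h
          exact ⟨nd, List.mem_flatMap.2 ⟨b 0, by simp, h⟩, hh⟩
        rcases f2 _ i this with h | ⟨nd, h, hh⟩
        · exact Or.inl h
        · exact Or.inr ⟨nd, List.mem_append_left _ h, hh⟩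
      · exact Or.inr ⟨nd, List.mem_append_right _
          (List.mem_flatMap.2 ⟨(fun i => b i.succ, b 0), by simp, h⟩), hh⟩
    · intro nd hnd
      rcases List.mem_append.1 hnd with h | h
      · exact f3 nd h
      · obtain ⟨x, -, hx⟩ := List.mem_flatMap.1 h
        exact g2 x nd hx
    · rw [D_append, hD2, Finset.sum_range_succ]
      rw [hDL'] at f4
      rw [mul_add, mul_add]
      linarith
    · rw [D_append, hD2, Finset.sum_range_succ, mul_add]
      linarith

end Pool.Agent.Helper21.Pin
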