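import Pool.Agent.Helper21.Pin.Defs

namespace Pool.Agent.Helper21.Pin

variable {ι : Type} {s : ι → ℝ}

@[simp] theorem D_nil : D ([] : List (Node s)) = 0 := by simp [D]

@[simp] theorem D_cons (nd : Node s) (l : List (Node s)) : D (nd :: l) = 1 / nd.p + D l := by
  simp [D]

@[simp] theorem D_append (l l' : List (Node s)) : D (l ++ l') = D l + D l' := by
  simp [D]

theorem D_nonneg (l : List (Node s)) : 0 ≤ D l := by
  induction l with
  | nil => simp
  | cons nd l ih => rw [D_cons]; have := nd.pos; positivity

theorem D_flatMap {β : Type} (L : List β) (f : β → List (Node s)) :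
    D (L.flatMap f) = (L.map fun y => D (f y)).sum := by
  induction L with
  | nil => simp
  | cons y L ih => simp [List.flatMap_cons, ih]

theorem Cov_flatMap {β : Type} {L : List β} {f : β → List (Node s)} {y : β} (hy : y ∈ L) {i : ι}
    (h : Cov (f y) i) : Cov (L.flatMap f) i := by
  obtain ⟨nd, hnd, hi⟩ := h
  exact ⟨nd, List.mem_flatMap.2 ⟨y, hy, hnd⟩, hi⟩

theorem Cov_append_left {l l' : List (Node s)} {i : ι} (h : Cov l i) : Cov (l ++ l') i := by
  obtain ⟨nd, hnd, hi⟩ := h
  exact ⟨nd, List.mem_append_left _ hnd, hi⟩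

theorem Cov_append_right {l l' : List (Node s)} {i : ι} (h : Cov l' i) : Cov (l ++ l') i := by
  obtain ⟨nd, hnd, hi⟩ := h
  exact ⟨nd, List.mem_append_right _ hnd, hi⟩

open Classical in
/-- Sorting a list of channels into classes. -/
theorem D_classes {β : Type} (S : Finset β) (g : Node s → β) (l : List (Node s))
    (h : ∀ nd ∈ l, g nd ∈ S) : ∑ y ∈ S, D (l.filter fun nd => g nd = y) = D l := by
  induction l with
  | nil => simp
  | cons nd l ih =>
    have h1 : ∀ nd ∈ l, g nd ∈ S := fun a ha => h a (List.mem_cons_of_mem _ ha)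
    have h2 := h nd (List.mem_cons_self)
    rw [D_cons, ← ih h1]
    have : ∀ y ∈ S, D ((nd :: l).filter fun nd => g nd = y) =
        (if g nd = y then 1 / nd.p else 0) + D (l.filter fun nd => g nd = y) := by
      intro y _
      rw [List.filter_cons]
      by_cases hg : g nd = y
      · simp [hg]
      · simp [hg]
    rw [Finset.sum_congr rfl this, Finset.sum_add_distrib, Finset.sum_ite_eq S (g nd)]
    simp [h2]

/-- A list of slow channels is short if its density is small. -/
theorem length_le_of_D (l : List (Node s)) (P : ℝ) (h : ∀ nd ∈ l, nd.p ≤ P) :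
    (l.length : ℝ) ≤ P * D l := by
  induction l with
  | nil => simp
  | cons nd l ih =>
    have h1 := ih fun a ha => h a (List.mem_cons_of_mem _ ha)
    have h2 := h nd (List.mem_cons_self)
    have h3 := nd.pos
    rw [D_cons, mul_add, List.length_cons]
    push_cast
    have : 1 ≤ P * (1 / nd.p) := by
      rw [mul_one_div, le_div_iff₀ h3]; linarith
    linarith

theorem D_le_of_length (l : List (Node s)) (z : ℝ) (hz : 0 < z) (h : ∀ nd ∈ l, z ≤ nd.p) :
    D l ≤ l.length / z := by
  induction l with
  | nil => simp
  | cons nd l ih =>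
    have h1 := ih fun a ha => h a (List.mem_cons_of_mem _ ha)
    have h2 := h nd (List.mem_cons_self)
    rw [D_cons, List.length_cons]
    push_cast
    have : 1 / nd.p ≤ 1 / z := one_div_le_one_div_of_le hz h2
    rw [add_div]
    linarith

open Classical in
/-- The tasks hosted by a list of channels have together at most the density of the list. -/
theorem tasks_density (l : List (Node s)) (A : Finset ι) (hA : ∀ i ∈ A, Cov l i)
    (hs : ∀ i, 0 < s i) : ∑ i ∈ A, 1 / s i ≤ D l := by
  induction l generalizing A with
  | nil =>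
    have : A = ∅ := by
      apply Finset.eq_empty_of_forall_notMem
      intro i hi
      obtain ⟨nd, hnd, _⟩ := hA i hi
      simp at hnd
    simp [this]
  | cons nd l ih =>
    have h1 : ∑ i ∈ A \ nd.A, 1 / s i ≤ D l := by
      apply ih
      intro i hi
      rw [Finset.mem_sdiff] at hi
      obtain ⟨nd', hnd', h'⟩ := hA i hi.1
      rcases List.mem_cons.1 hnd' with h2 | h2
      · subst h2; exact absurd h' hi.2
      · exact ⟨nd', h2, h'⟩
    have h2 : ∑ i ∈ A ∩ nd.A, 1 / s i ≤ 1 / nd.p := by
      refine le_trans ?_ nd.dens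
      apply Finset.sum_le_sum_of_subset_of_nonneg Finset.inter_subset_right
      intro i _ _
      have := hs i
      positivity
    rw [D_cons]
    have h3 : ∑ i ∈ A, 1 / s i = ∑ i ∈ A \ nd.A, 1 / s i + ∑ i ∈ A ∩ nd.A, 1 / s i := by
      rw [← Finset.sum_union (Finset.disjoint_sdiff_inter A nd.A), Finset.sdiff_union_inter]
    linarith

end Pool.Agent.Helper21.Pin
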