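import Pool.Agent.Helper21.Pin.Defs

namespace Pool.Agent.Helper21.Pin

private lemma theta_diff (T : ℕ) :
    Chebyshev.theta ((4 * T : ℕ) : ℝ) = Chebyshev.theta (T : ℝ) +
      ∑ p ∈ (Finset.Ioc T (4 * T)).filter Nat.Prime, Real.log p := by
  unfold Chebyshev.theta
  rw [Nat.floor_natCast, Nat.floor_natCast, Finset.sum_filter, Finset.sum_filter,
    Finset.sum_filter]
  exact (Finset.sum_Ioc_consecutive _ (Nat.zero_le _) (by omega)).symm

/-- Chebyshev: many primes in `(T, 4T]`. -/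
theorem prime_supply : ∃ T₀ : ℕ, 2 ≤ T₀ ∧ ∀ T : ℕ, T₀ ≤ T →
    (T : ℝ) / (2 * Real.log T) ≤ (((Finset.Ioc T (4 * T)).filter Nat.Prime).card : ℝ) := by
  refine ⟨10 ^ 10, by norm_num, fun T hT => ?_⟩
  have hTr : (10 : ℝ) ^ 10 ≤ T := by exact_mod_cast hT
  have hT0 : (0 : ℝ) < T := lt_of_lt_of_le (by norm_num) hTr
  set y : ℝ := √(√(5 * (T : ℝ))) with hy
  have hy2 : y ^ 2 = √(5 * (T : ℝ)) := Real.sq_sqrt (Real.sqrt_nonneg _)
  have hy4 : y ^ 4 = 5 * T := by
    have : y ^ 4 = (y ^ 2) ^ 2 := by ring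
    rw [this, hy2, Real.sq_sqrt (by positivity)]
  have hy0 : 0 ≤ y := Real.sqrt_nonneg _
  have hy300 : 300 ≤ y := by
    by_contra h
    push Not at h
    have : y ^ 4 < 300 ^ 4 := pow_lt_pow_left₀ h hy0 (by norm_num)
    rw [hy4] at this
    linarith
  have hlog5 : Real.log (5 * T) ≤ 4 * y := by
    rw [← hy4, Real.log_pow]
    have := Real.log_le_sub_one_of_pos (show 0 < y by linarith)
    push_cast
    linarith
  have hlog4 : Real.log ((4 * T : ℕ) : ℝ) ≤ 4 * y := by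
    refine le_trans (Real.log_le_log ?_ ?_) hlog5
    · push_cast; positivity
    · push_cast; linarith
  have hlog4' : Real.log (((4 * T : ℕ) : ℝ) + 1) ≤ 4 * y := by
    refine le_trans (Real.log_le_log ?_ ?_) hlog5
    · push_cast; positivity
    · push_cast; linarith
  have hsq : √((4 * T : ℕ) : ℝ) ≤ y ^ 2 := by
    rw [hy2]
    apply Real.sqrt_le_sqrt
    push_cast; linarith
  have h1 := Chebyshev.theta_ge (4 * T)
  have h2 := Chebyshev.theta_le_log4_mul_x (x := (T : ℝ)) hT0.le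
  have hl4 : Real.log 4 = 2 * Real.log 2 := by
    rw [show (4 : ℝ) = 2 ^ 2 by norm_num, Real.log_pow]; norm_num
  have hl2 : (0.69 : ℝ) < Real.log 2 := by
    have := Real.log_two_gt_d9; linarith
  have hlog0 : 0 ≤ Real.log ((4 * T : ℕ) : ℝ) := Real.log_natCast_nonneg _
  have h3 : 2 * √((4 * T : ℕ) : ℝ) * Real.log ((4 * T : ℕ) : ℝ) ≤ 2 * y ^ 2 * (4 * y) := by
    gcongr
  have h4 := theta_diff T
  have h5 : ∑ p ∈ (Finset.Ioc T (4 * T)).filter Nat.Prime, Real.log p ≤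
      (((Finset.Ioc T (4 * T)).filter Nat.Prime).card : ℝ) * (2 * Real.log T) := by
    rw [← nsmul_eq_mul]
    apply Finset.sum_le_card_nsmul
    intro p hp
    have hp' := Finset.mem_Ioc.1 (Finset.mem_filter.1 hp).1
    have e : 2 * Real.log T = Real.log ((T : ℝ) ^ 2) := by
      rw [Real.log_pow]; norm_num
    rw [e]
    apply Real.log_le_log
    · exact_mod_cast (by omega : 0 < p)
    · calc (p : ℝ) ≤ 4 * T := by exact_mod_cast hp'.2
        _ ≤ (T : ℝ) ^ 2 := by nlinarith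
  have h6 : (T : ℝ) ≤ ∑ p ∈ (Finset.Ioc T (4 * T)).filter Nat.Prime, Real.log p := by
    have e1 : (((4 * T : ℕ) : ℝ)) * Real.log 2 = 4 * (T * Real.log 2) := by push_cast; ring
    have e2 : (0.69 : ℝ) * T ≤ T * Real.log 2 := by nlinarith
    have e3 : Real.log 4 * (T : ℝ) = 2 * (T * Real.log 2) := by rw [hl4]; ring
    have e4 : 4 * y + 8 * y ^ 3 ≤ 0.05 * y ^ 4 := by
      have : 0 ≤ y ^ 3 := by positivity
      nlinarith [sq_nonneg y, mul_nonneg this (sub_nonneg.2 hy300)]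
    have e5 : 2 * y ^ 2 * (4 * y) = 8 * y ^ 3 := by ring
    rw [e5] at h3
    rw [e1] at h1
    rw [e3] at h2
    rw [hy4] at e4
    linarith
  have hlogT : 0 < Real.log T := Real.log_pos (by linarith)
  rw [div_le_iff₀ (by positivity)]
  exact h6.trans h5

end Pool.Agent.Helper21.Pin
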