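import Pool.Agent.Helper21.Pin.Big
import Pool.Agent.Helper21.Pin.Cover
import Pool.Agent.Helper21.Pin.Supply

namespace Pool.Agent.Helper21.Pin

theorem exists_cover (F : ℕ) : ∃ c : ℝ, 0 < c ∧ CoverStmt F c := by
  rcases Nat.eq_zero_or_pos F with hF | hF
  · subst hF
    exact ⟨1, one_pos, cover_zero⟩
  · exact coverage F hF

theorem PW_zero : PW 0 := by
  refine ⟨2, by norm_num, fun ι _ x a z _ _ _ hC hD => ?_⟩
  exfalso
  simp at hC
  have : 0 ≤ ∑ i, 1 / (x i : ℝ) := Finset.sum_nonneg fun i _ => by positivity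
  linarith

theorem PW_succ (F : ℕ) (h : PW F) : PW (F + 1) := by
  obtain ⟨C', hC', ih⟩ := h
  obtain ⟨c, hc, hcov⟩ := exists_cover F
  obtain ⟨T₀, hT₀, hsup⟩ := prime_supply
  have hc1 := c₁_nonneg F
  -- constants
  obtain ⟨K, hK⟩ : ∃ K : ℝ, K = c * 2 ^ F * (F + 5) + 48 * (F + 6) +
    C' * 2 ^ (3 * F + 1) * (c₁ F + 1) + 2 * F := ⟨_, rfl⟩
  have hk1 : 0 ≤ c * 2 ^ F * ((F : ℝ) + 5) := by positivity
  have hk2 : 0 ≤ 48 * ((F : ℝ) + 6) := by positivity
  have hk3 : 0 ≤ C' * 2 ^ (3 * F + 1) * (c₁ F + 1) := by positivity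
  have hk4 : 0 ≤ 2 * (F : ℝ) := by positivity
  obtain ⟨T₁, hT₁⟩ := params F K
  obtain ⟨a₀, ha₀⟩ := exists_T (F + 3) (by omega) (max T₁ (max T₀ 8))
  refine ⟨2 * (c₁ F + 12) ^ (F + 2) + (a₀ : ℝ) ^ (F + 1) + 1, by positivity,
    fun ι _ x a z ha1 hx hz hC hD => ?_⟩
  have ha1' : (1 : ℝ) ≤ a := by exact_mod_cast ha1
  have ha0 : (0 : ℝ) < a := by linarith
  have hsum0 : 0 ≤ ∑ i, 1 / (x i : ℝ) := Finset.sum_nonneg fun i _ => by positivity
  rcases lt_or_ge a a₀ with hlt | hge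
  · -- small `a`: the hypothesis is contradictory
    exfalso
    have hz1 : z ≤ 1 := by linarith
    have h1 : z ^ (F + 1 + 1) * (a : ℝ) ^ (F + 1) ≤ (a₀ : ℝ) ^ (F + 1) := by
      calc z ^ (F + 1 + 1) * (a : ℝ) ^ (F + 1) ≤ 1 * (a₀ : ℝ) ^ (F + 1) := by
            gcongr
            exact pow_le_one₀ hz hz1
        _ = _ := one_mul _
    have h2 : 0 ≤ 2 * (c₁ F + 12) ^ (F + 2) := by positivity
    linarith
  · obtain ⟨T, hT1, haT, hTa⟩ := ha₀ a hge
    have hTa1 : T₁ ≤ T := le_trans (le_max_left _ _) hT1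
    have hTa2 : T₀ ≤ T := le_trans (le_trans (le_max_left _ _) (le_max_right _ _)) hT1
    have hTa3 : 8 ≤ T := le_trans (le_trans (le_max_right _ _) (le_max_right _ _)) hT1
    obtain ⟨y, hy1, hyT, hyK⟩ := hT₁ T hTa1
    have hT8 : (8 : ℝ) ≤ T := by exact_mod_cast hTa3
    have hT0 : (0 : ℝ) < T := by linarith
    have hlog1 : 1 ≤ Real.log T := by
      rw [Real.le_log_iff_exp_le hT0]
      have := Real.exp_one_lt_d9
      linarith
    have hlogpow : 1 ≤ Real.log T ^ (F + 1) := one_le_pow₀ hlog1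
    obtain ⟨B, hB⟩ : ∃ B : Finset ℕ, B = (Finset.Ioc T (4 * T)).filter Nat.Prime := ⟨_, rfl⟩
    have hBcard : (T : ℝ) / (2 * Real.log T) ≤ B.card := by
      rw [hB]; exact hsup T hTa2
    have hB' : ∀ b ∈ B, b.Prime ∧ T < b ∧ b ≤ 4 * T := by
      intro b hb
      rw [hB, Finset.mem_filter, Finset.mem_Ioc] at hb
      exact ⟨hb.2, hb.1.1, hb.1.2⟩
    have hKy : ∀ k : ℝ, 0 ≤ k → k ≤ K → k * Real.log T ^ (F + 1) ≤ y := fun k _ hkK =>
      le_trans (mul_le_mul_of_nonneg_right hkK (by linarith)) hyK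
    have hy2 : y ^ 2 ≤ T := by
      rw [← hyT]; exact pow_le_pow_right₀ hy1 (by omega)
    have hFB : F ≤ B.card := by
      have h1 : 2 * (F : ℝ) * Real.log T ^ (F + 1) ≤ y := hKy _ hk4 (by rw [hK]; linarith)
      have h2 : Real.log T ≤ Real.log T ^ (F + 1) := le_self_pow₀ hlog1 (by omega)
      have h3 : 2 * (F : ℝ) * Real.log T ≤ y := le_trans (by gcongr) h1
      have h4 : y ≤ y ^ 2 := by nlinarith
      have h5 : (F : ℝ) ≤ T / (2 * Real.log T) := by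
        rw [le_div_iff₀ (by positivity)]
        linarith
      exact_mod_cast h5.trans hBcard
    have hfinal : (c₁ F + 12) * T * y ^ 2 / a ≤ z := by
      have h1 : ((c₁ F + 12) * T * y ^ 2 / a) ^ (F + 2) * (a : ℝ) ^ (F + 1) ≤
          2 * (c₁ F + 12) ^ (F + 2) := by
        have h2 : ((c₁ F + 12) * T * y ^ 2 / a) ^ (F + 2) * (a : ℝ) ^ (F + 1) =
            (c₁ F + 12) ^ (F + 2) * ((T : ℝ) ^ (F + 3) / a) := by
          have h3 : (y ^ 2) ^ (F + 2) = T := by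
            rw [← pow_mul, ← hyT]
            congr 1
          rw [div_pow, mul_pow, mul_pow, h3]
          field_simp
          ring
        rw [h2]
        have h4 : (T : ℝ) ^ (F + 3) / a ≤ 2 := by
          rw [div_le_iff₀ ha0]
          exact_mod_cast hTa
        calc (c₁ F + 12) ^ (F + 2) * ((T : ℝ) ^ (F + 3) / a) ≤ (c₁ F + 12) ^ (F + 2) * 2 := by
              gcongr
          _ = _ := by ring
      have h2 : ((c₁ F + 12) * T * y ^ 2 / a) ^ (F + 2) ≤ z ^ (F + 2) := by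
        have h3 : ((c₁ F + 12) * T * y ^ 2 / a) ^ (F + 2) * (a : ℝ) ^ (F + 1) ≤
            z ^ (F + 2) * (a : ℝ) ^ (F + 1) := by
          have : (0 : ℝ) ≤ (a₀ : ℝ) ^ (F + 1) := by positivity
          linarith
        exact le_of_mul_le_mul_right h3 (by positivity)
      exact (pow_le_pow_iff_left₀ (by positivity) hz (by omega)).1 h2
    exact big_step F c C' hc hC' ih hcov T B hTa3 hB' hFB hBcard y hy1 hyT hlog1
      (hKy _ hk1 (by rw [hK]; linarith)) (hKy _ hk2 (by rw [hK]; linarith))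
      (by
        refine le_trans ?_ (hKy _ hk3 (by rw [hK]; linarith))
        exact le_mul_of_one_le_right hk3 hlogpow)
      a haT hTa x hx z hfinal hD

theorem PW_all (F : ℕ) : PW F := by
  induction F with
  | zero => exact PW_zero
  | succ F ih => exact PW_succ F ih

/-- The threshold with a real exponent. -/
theorem pinwheel_eps (ε : ℝ) (hε : 0 < ε) : ∃ C : ℝ, ∀ (ι : Type) [Fintype ι] (x : ι → ℕ)
    (a : ℕ), 1 ≤ a → (∀ i, a ≤ x i) →
    ∑ i, 1 / (x i : ℝ) ≤ 1 - C * (a : ℝ) ^ (-1 + ε) → Sched x := by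
  obtain ⟨F, hF⟩ := exists_nat_one_div_lt hε
  obtain ⟨C, hC, h⟩ := PW_all F
  refine ⟨max C 1, fun ι _ x a ha hx hD => ?_⟩
  have ha1 : (1 : ℝ) ≤ a := by exact_mod_cast ha
  have ha0 : (0 : ℝ) < a := by linarith
  have hC1 : 1 ≤ max C 1 := le_max_right _ _
  apply h ι x a (max C 1 * (a : ℝ) ^ (-1 + ε)) ha hx (by positivity) _ hD
  have h1 : (1 : ℝ) ≤ ((a : ℝ) ^ (-1 + ε)) ^ (F + 1) * (a : ℝ) ^ F := by
    rw [← Real.rpow_natCast, ← Real.rpow_mul ha0.le, ← Real.rpow_natCast, ← Real.rpow_add ha0]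
    apply Real.one_le_rpow ha1
    push_cast
    rw [div_lt_iff₀ (by positivity)] at hF
    nlinarith
  calc C ≤ max C 1 := le_max_left _ _
    _ ≤ (max C 1) ^ (F + 1) := le_self_pow₀ hC1 (by omega)
    _ ≤ (max C 1) ^ (F + 1) * (((a : ℝ) ^ (-1 + ε)) ^ (F + 1) * (a : ℝ) ^ F) :=
        le_mul_of_one_le_right (by positivity) h1
    _ = (max C 1 * (a : ℝ) ^ (-1 + ε)) ^ (F + 1) * (a : ℝ) ^ F := by rw [mul_pow]; ring

end Pool.Agent.Helper21.Pin
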