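import Pool.Agent.Helper21.Pin.Defs

namespace Pool.Agent.Helper21.Pin

variable {ι : Type} {s : ι → ℝ}

/-- The one-task channel. -/
theorem exists_single (i : ι) (hi : 0 < s i) : ∃ nd : Node s, nd.p = s i ∧ nd.A = {i} := by
  refine ⟨⟨s i, {i}, hi, by simp, fun _ => some i, ?_⟩, rfl, rfl⟩
  intro j hj m
  rw [Finset.mem_singleton] at hj
  subst hj
  refine ⟨m, le_refl _, ?_, rfl⟩
  simp

theorem host_pos {p : ℝ} {A : Finset ι} (hp : 0 < p) (h : Host s p A) {i : ι} (hi : i ∈ A) :
    0 < s i := by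
  obtain ⟨σ, hσ⟩ := h
  obtain ⟨n, hn, hle, -⟩ := hσ i hi 0
  refine lt_of_lt_of_le ?_ hle
  have : (0 : ℝ) < ((n - 0 + 1 : ℤ) : ℝ) := by
    exact_mod_cast (by omega : (0 : ℤ) < n - 0 + 1)
  positivity

theorem sum_biUnion_le' {κ : Type} [DecidableEq ι] (C : Finset κ) (A : κ → Finset ι) (f : ι → ℝ)
    (hf : ∀ c ∈ C, ∀ i ∈ A c, 0 ≤ f i) :
    ∑ i ∈ C.biUnion A, f i ≤ ∑ c ∈ C, ∑ i ∈ A c, f i := by
  classical
  induction C using Finset.induction_on with
  | empty => simp
  | insert c C hc ih =>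
    rw [Finset.biUnion_insert, Finset.sum_insert hc]
    have h1 := ih (fun c' hc' => hf c' (Finset.mem_insert_of_mem hc'))
    have h2 := Finset.sum_union_inter (s₁ := A c) (s₂ := C.biUnion A) (f := f)
    have h3 : 0 ≤ ∑ i ∈ A c ∩ C.biUnion A, f i :=
      Finset.sum_nonneg (fun i hi => hf c (Finset.mem_insert_self _ _) i
        (Finset.mem_inter.1 hi).1)
    linarith

/-- Merging at most `M` channels of periods `≥ p` into one channel of period `p / M`. -/
theorem exists_merge (g : List (Node s)) (M : ℕ) (hM : 1 ≤ M) (hg : g.length ≤ M) (p : ℝ)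
    (hp : 0 < p) (h : ∀ nd ∈ g, p ≤ nd.p) :
    ∃ nd : Node s, nd.p = p / M ∧ ∀ i, Cov g i → i ∈ nd.A := by
  classical
  have hM0 : (0 : ℝ) < M := by exact_mod_cast hM
  choose σ hσ using fun c : Fin g.length => (g.get c).host
  let A : Finset ι := Finset.univ.biUnion fun c : Fin g.length => (g.get c).A
  refine ⟨⟨p / M, A, by positivity, ?_, ?_⟩, rfl, ?_⟩
  · refine (sum_biUnion_le' _ _ _ ?_).trans ?_
    · intro c _ i hi
      exact one_div_nonneg.2 (host_pos (g.get c).pos (g.get c).host hi).le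
    · calc ∑ c : Fin g.length, ∑ i ∈ (g.get c).A, 1 / s i
          ≤ ∑ c : Fin g.length, 1 / p := by
            refine Finset.sum_le_sum fun c _ => ((g.get c).dens).trans ?_
            exact one_div_le_one_div_of_le hp (h _ (List.get_mem _ _))
        _ = (g.length : ℝ) / p := by
            rw [Finset.sum_const, Finset.card_univ, Fintype.card_fin, nsmul_eq_mul]; ring
        _ ≤ (M : ℝ) / p := by
            gcongr
        _ = 1 / (p / M) := by rw [one_div_div]
  · refine ⟨fun k => if hc : (k % (M : ℤ)).toNat < g.length then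
      σ ⟨(k % (M : ℤ)).toNat, hc⟩ (k / (M : ℤ)) else none, ?_⟩
    intro i hi m
    obtain ⟨c, -, hic⟩ := Finset.mem_biUnion.1 hi
    have hMz : (0 : ℤ) < M := by exact_mod_cast hM
    set n0 : ℤ := -(((c : ℕ) - m : ℤ) / (M : ℤ)) with hn0
    have e1 : m ≤ n0 * M + (c : ℕ) := by
      have := Int.ediv_mul_le ((c : ℕ) - m : ℤ) hMz.ne'
      rw [hn0]; linarith
    have e2 : n0 * M + (c : ℕ) ≤ m + M - 1 := by
      have := Int.lt_ediv_add_one_mul_self ((c : ℕ) - m : ℤ) hMz
      rw [hn0]
      have h3 : (((c : ℕ) - m : ℤ) / (M : ℤ) + 1) * M = ((c : ℕ) - m : ℤ) / (M : ℤ) * M + M := by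
        ring
      rw [h3] at this
      linarith
    obtain ⟨n, hn, hle, hsome⟩ := hσ c i hic n0
    refine ⟨n * M + (c : ℕ), ?_, ?_, ?_⟩
    · have : n0 * M ≤ n * M := mul_le_mul_of_nonneg_right hn hMz.le
      linarith
    · have h3 : (n * M + (c : ℕ) - m + 1 : ℤ) ≤ (n - n0 + 1) * M := by
        have : (n - n0 + 1) * (M : ℤ) = n * M - n0 * M + M := by ring
        rw [this]; linarith
      have h4 : ((n * M + (c : ℕ) - m + 1 : ℤ) : ℝ) ≤ ((n - n0 + 1 : ℤ) : ℝ) * M := by
        exact_mod_cast h3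
      have h5 : (0 : ℝ) ≤ ((n - n0 + 1 : ℤ) : ℝ) := by
        exact_mod_cast (by omega : (0 : ℤ) ≤ n - n0 + 1)
      calc ((n * M + (c : ℕ) - m + 1 : ℤ) : ℝ) * (p / M)
          ≤ (((n - n0 + 1 : ℤ) : ℝ) * M) * (p / M) := by
            exact mul_le_mul_of_nonneg_right h4 (by positivity)
        _ = ((n - n0 + 1 : ℤ) : ℝ) * p := by field_simp
        _ ≤ ((n - n0 + 1 : ℤ) : ℝ) * (g.get c).p :=
            mul_le_mul_of_nonneg_left (h _ (List.get_mem _ _)) h5
        _ ≤ s i := hle
    · have hcM : ((c : ℕ) : ℤ) < M := by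
        have := c.2
        omega
      have e3 : (n * (M : ℤ) + (c : ℕ)) % (M : ℤ) = (c : ℕ) := by
        rw [add_comm, Int.add_mul_emod_self_right]
        exact Int.emod_eq_of_lt (by omega) hcM
      have e4 : (n * (M : ℤ) + (c : ℕ)) / (M : ℤ) = n := by
        rw [add_comm, Int.add_mul_ediv_right _ _ hMz.ne', Int.ediv_eq_zero_of_lt (by omega) hcM,
          zero_add]
      have e5 : ((n * (M : ℤ) + (c : ℕ)) % (M : ℤ)).toNat = (c : ℕ) := by
        rw [e3]; simp
      have e6 : ((n * (M : ℤ) + (c : ℕ)) % (M : ℤ)).toNat < g.length := by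
        rw [e5]; exact c.2
      show (if hc : ((n * (M : ℤ) + (c : ℕ)) % (M : ℤ)).toNat < g.length then
        σ ⟨((n * (M : ℤ) + (c : ℕ)) % (M : ℤ)).toNat, hc⟩ ((n * (M : ℤ) + (c : ℕ)) / (M : ℤ))
        else none) = some i
      rw [dif_pos e6]
      have e7 : (⟨((n * (M : ℤ) + (c : ℕ)) % (M : ℤ)).toNat, e6⟩ : Fin g.length) = c :=
        Fin.ext e5
      rw [e7, e4]
      exact hsome
  · rintro i ⟨nd, hnd, hi⟩
    obtain ⟨k, hk⟩ := List.get_of_mem hnd
    exact Finset.mem_biUnion.2 ⟨k, Finset.mem_univ _, by rw [hk]; exact hi⟩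

theorem D_nil : D ([] : List (Node s)) = 0 := by simp [D]

theorem D_cons (nd : Node s) (l : List (Node s)) : D (nd :: l) = 1 / nd.p + D l := by simp [D]

theorem D_append (l l' : List (Node s)) : D (l ++ l') = D l + D l' := by simp [D]

theorem D_perm {l l' : List (Node s)} (h : l.Perm l') : D l = D l' := by
  unfold D
  exact (h.map _).sum_eq

theorem cov_perm {l l' : List (Node s)} (h : l.Perm l') {i : ι} (hi : Cov l i) : Cov l' i := by
  obtain ⟨nd, h1, h2⟩ := hi
  exact ⟨nd, h.mem_iff.1 h1, h2⟩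

theorem length_div_le_D {P : ℝ} {l : List (Node s)} (hl : ∀ nd ∈ l, nd.p ≤ P) :
    (l.length : ℝ) / P ≤ D l := by
  induction l with
  | nil => simp [D]
  | cons nd l ih =>
    rw [D_cons, List.length_cons]
    have h1 := ih (fun nd' h' => hl nd' (List.mem_cons_of_mem _ h'))
    have h2 : 1 / P ≤ 1 / nd.p := one_div_le_one_div_of_le nd.pos (hl nd (by simp))
    push_cast
    rw [add_div]
    linarith

theorem cov_take_drop {M : ℕ} {l : List (Node s)} {i : ι} (hi : Cov l i) :
    Cov (l.take M) i ∨ Cov (l.drop M) i := by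
  obtain ⟨nd, h1, h2⟩ := hi
  rw [← List.take_append_drop M l, List.mem_append] at h1
  rcases h1 with h1 | h1
  · exact Or.inl ⟨nd, h1, h2⟩
  · exact Or.inr ⟨nd, h1, h2⟩

/-- The threshold period after the first `M` channels of a sorted list. -/
theorem exists_thr {M : ℕ} (hM : 1 ≤ M) {l : List (Node s)}
    (hs : l.Pairwise fun a b => b.p ≤ a.p) (hlen : M ≤ l.length) :
    ∃ nd0 ∈ l, (∀ nd ∈ l.take M, nd0.p ≤ nd.p) ∧ ∀ nd ∈ l.drop M, nd.p ≤ nd0.p := by
  have hs' := List.pairwise_iff_getElem.1 hs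
  refine ⟨l[M - 1]'(by omega), List.getElem_mem _, ?_, ?_⟩
  · intro nd hnd
    obtain ⟨k, hk, rfl⟩ := List.mem_iff_getElem.1 hnd
    rw [List.length_take] at hk
    rw [List.getElem_take]
    rcases Nat.lt_or_ge k (M - 1) with h | h
    · exact hs' k (M - 1) (by omega) (by omega) h
    · have : k = M - 1 := by omega
      subst this
      exact le_refl _
  · intro nd hnd
    obtain ⟨k, hk, rfl⟩ := List.mem_iff_getElem.1 hnd
    rw [List.length_drop] at hk
    rw [List.getElem_drop]
    exact hs' (M - 1) (M + k) (by omega) (by omega) (by omega)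

theorem exists_sorted (l : List (Node s)) :
    ∃ l' : List (Node s), l'.Perm l ∧ l'.Pairwise fun a b => b.p ≤ a.p := by
  classical
  refine ⟨l.mergeSort (fun a b => decide (b.p ≤ a.p)), List.mergeSort_perm _ _, ?_⟩
  have := List.pairwise_mergeSort (le := fun a b : Node s => decide (b.p ≤ a.p))
    (by
      intro a b c h1 h2
      simp only [decide_eq_true_eq] at *
      exact h2.trans h1)
    (by
      intro a b
      simp only [Bool.or_eq_true, decide_eq_true_eq]
      exact le_total _ _) l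
  refine this.imp ?_
  intro a b h
  simpa using h

theorem group_exact_aux (M : ℕ) (hM : 1 ≤ M) (z : ℝ) (hz : 0 < z) (N : ℕ) :
    ∀ (P : ℝ) (_ : z ≤ P) (l : List (Node s)) (_ : l.length ≤ N)
      (_ : l.Pairwise fun a b => b.p ≤ a.p) (_ : ∀ nd ∈ l, z ≤ nd.p ∧ nd.p ≤ P),
    ∃ l' left : List (Node s), (∀ nd ∈ l', z / M ≤ nd.p ∧ nd.p ≤ P / M) ∧
      (∀ nd ∈ left, nd ∈ l) ∧ left.length < M ∧
      (∀ i, Cov l i → Cov l' i ∨ Cov left i) ∧
      D l' + D left ≤ D l + M * (1 / z - 1 / P) := by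
  have hM0 : (0 : ℝ) < M := by exact_mod_cast hM
  induction N with
  | zero =>
    intro P hzP l hlen _ _
    have : l = [] := List.length_eq_zero_iff.1 (by omega)
    subst this
    refine ⟨[], [], by simp, by simp, by simp; omega, fun i hi => Or.inl hi, ?_⟩
    have : 1 / P ≤ 1 / z := one_div_le_one_div_of_le hz hzP
    have h2 : 0 ≤ (M : ℝ) * (1 / z - 1 / P) := mul_nonneg hM0.le (by linarith)
    rw [D_nil]
    linarith
  | succ N ih =>
    intro P hzP l hlen hs hl
    rcases Nat.lt_or_ge l.length M with hlt | hge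
    · refine ⟨[], l, by simp, fun _ h => h, hlt, fun i hi => Or.inr hi, ?_⟩
      have : 1 / P ≤ 1 / z := one_div_le_one_div_of_le hz hzP
      have h2 : 0 ≤ (M : ℝ) * (1 / z - 1 / P) := mul_nonneg hM0.le (by linarith)
      rw [D_nil]
      linarith
    · obtain ⟨nd0, hnd0, h1, h2⟩ := exists_thr hM hs hge
      have hz0 : z ≤ nd0.p := (hl nd0 hnd0).1
      have hP0 : nd0.p ≤ P := (hl nd0 hnd0).2
      have htl : (l.take M).length = M := by
        rw [List.length_take]; omega
      obtain ⟨nm, hnm, hcov⟩ := exists_merge (l.take M) M hM htl.le nd0.p nd0.pos h1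
      obtain ⟨l', left, a1, a2, a3, a4, a5⟩ := ih nd0.p hz0 (l.drop M)
        (by rw [List.length_drop]; omega) (hs.drop)
        (fun nd hnd => ⟨(hl nd (List.mem_of_mem_drop hnd)).1, h2 nd hnd⟩)
      refine ⟨nm :: l', left, ?_, fun nd hnd => List.mem_of_mem_drop (a2 nd hnd), a3, ?_, ?_⟩
      · intro nd hnd
        rcases List.mem_cons.1 hnd with rfl | hnd
        · rw [hnm]
          constructor
          · gcongr
          · gcongr
        · exact ⟨(a1 nd hnd).1, (a1 nd hnd).2.trans (by gcongr)⟩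
      · intro i hi
        rcases cov_take_drop (M := M) hi with hi | hi
        · exact Or.inl ⟨nm, by simp, hcov i hi⟩
        · rcases a4 i hi with ⟨nd, b1, b2⟩ | h
          · exact Or.inl ⟨nd, List.mem_cons_of_mem _ b1, b2⟩
          · exact Or.inr h
      · have h3 : (M : ℝ) / P ≤ D (l.take M) := by
          have := length_div_le_D (P := P) (l := l.take M)
            (fun nd hnd => (hl nd (List.mem_of_mem_take hnd)).2)
          rwa [htl] at this
        have h4 : D l = D (l.take M) + D (l.drop M) := by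
          rw [← D_append, List.take_append_drop]
        have h5 : 1 / nm.p = M * (1 / nd0.p) := by
          rw [hnm, one_div_div]; ring
        rw [D_cons, h4, h5]
        have h6 : (M : ℝ) / P = M * (1 / P) := by ring
        rw [h6] at h3
        nlinarith [a5]

/-- Grouping into groups of exactly `M`, with fewer than `M` channels left over. -/
theorem group_exact (M : ℕ) (hM : 1 ≤ M) (z P : ℝ) (hz : 0 < z) (hzP : z ≤ P)
    (l : List (Node s)) (hl : ∀ nd ∈ l, z ≤ nd.p ∧ nd.p ≤ P) :
    ∃ l' left : List (Node s), (∀ nd ∈ l', z / M ≤ nd.p ∧ nd.p ≤ P / M) ∧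
      (∀ nd ∈ left, nd ∈ l) ∧ left.length < M ∧
      (∀ i, Cov l i → Cov l' i ∨ Cov left i) ∧
      D l' + D left ≤ D l + M * (1 / z - 1 / P) := by
  obtain ⟨l1, hp, hs⟩ := exists_sorted l
  obtain ⟨l', left, a1, a2, a3, a4, a5⟩ := group_exact_aux M hM z hz l1.length P hzP l1 le_rfl hs
    (fun nd hnd => hl nd (hp.mem_iff.1 hnd))
  exact ⟨l', left, a1, fun nd hnd => hp.mem_iff.1 (a2 nd hnd), a3,
    fun i hi => a4 i (cov_perm hp.symm hi), by rw [← D_perm hp]; exact a5⟩

theorem group_all_aux (M : ℕ) (hM : 1 ≤ M) (z : ℝ) (hz : 0 < z) (N : ℕ) :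
    ∀ (P : ℝ) (_ : z ≤ P) (l : List (Node s)) (_ : l.length ≤ N)
      (_ : l.Pairwise fun a b => b.p ≤ a.p) (_ : ∀ nd ∈ l, z ≤ nd.p ∧ nd.p ≤ P),
    ∃ l' : List (Node s), ((l'.length : ℝ) ≤ l.length / M + 1) ∧
      (∀ i, Cov l i → Cov l' i) ∧ D l' ≤ D l + M * (1 / z - 1 / P) := by
  have hM0 : (0 : ℝ) < M := by exact_mod_cast hM
  induction N with
  | zero =>
    intro P hzP l hlen _ _
    have : l = [] := List.length_eq_zero_iff.1 (by omega)
    subst this
    refine ⟨[], by simp, fun i hi => hi, ?_⟩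
    have : 1 / P ≤ 1 / z := one_div_le_one_div_of_le hz hzP
    have h2 : 0 ≤ (M : ℝ) * (1 / z - 1 / P) := mul_nonneg hM0.le (by linarith)
    linarith
  | succ N ih =>
    intro P hzP l hlen hs hl
    rcases Nat.lt_or_ge l.length M with hlt | hge
    · rcases Nat.eq_zero_or_pos l.length with h0 | hpos
      · have : l = [] := List.length_eq_zero_iff.1 h0
        subst this
        refine ⟨[], by simp, fun i hi => hi, ?_⟩
        have : 1 / P ≤ 1 / z := one_div_le_one_div_of_le hz hzP
        have h2 : 0 ≤ (M : ℝ) * (1 / z - 1 / P) := mul_nonneg hM0.le (by linarith)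
        linarith
      · obtain ⟨nm, hnm, hcov⟩ := exists_merge l l.length hpos le_rfl z hz
          (fun nd hnd => (hl nd hnd).1)
        refine ⟨[nm], ?_, fun i hi => ⟨nm, by simp, hcov i hi⟩, ?_⟩
        · have : (0 : ℝ) ≤ (l.length : ℝ) / M := by positivity
          simp only [List.length_singleton, Nat.cast_one]
          linarith
        · have h3 := length_div_le_D (P := P) (l := l) (fun nd hnd => (hl nd hnd).2)
          have h5 : 1 / nm.p = l.length * (1 / z) := by
            rw [hnm, one_div_div]; ring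
          have h6 : (l.length : ℝ) / P = l.length * (1 / P) := by ring
          rw [h6] at h3
          rw [D_cons, D_nil, h5]
          have h7 : 1 / P ≤ 1 / z := one_div_le_one_div_of_le hz hzP
          have h8 : (l.length : ℝ) ≤ M := by exact_mod_cast hlt.le
          nlinarith
    · obtain ⟨nd0, hnd0, h1, h2⟩ := exists_thr hM hs hge
      have hz0 : z ≤ nd0.p := (hl nd0 hnd0).1
      have hP0 : nd0.p ≤ P := (hl nd0 hnd0).2
      have htl : (l.take M).length = M := by
        rw [List.length_take]; omega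
      obtain ⟨nm, hnm, hcov⟩ := exists_merge (l.take M) M hM htl.le nd0.p nd0.pos h1
      obtain ⟨l', a1, a4, a5⟩ := ih nd0.p hz0 (l.drop M)
        (by rw [List.length_drop]; omega) (hs.drop)
        (fun nd hnd => ⟨(hl nd (List.mem_of_mem_drop hnd)).1, h2 nd hnd⟩)
      refine ⟨nm :: l', ?_, ?_, ?_⟩
      · rw [List.length_cons]
        push_cast
        rw [List.length_drop, Nat.cast_sub hge, sub_div, div_self hM0.ne'] at a1
        linarith
      · intro i hi
        rcases cov_take_drop (M := M) hi with hi | hi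
        · exact ⟨nm, by simp, hcov i hi⟩
        · obtain ⟨nd, b1, b2⟩ := a4 i hi
          exact ⟨nd, List.mem_cons_of_mem _ b1, b2⟩
      · have h3 : (M : ℝ) / P ≤ D (l.take M) := by
          have := length_div_le_D (P := P) (l := l.take M)
            (fun nd hnd => (hl nd (List.mem_of_mem_take hnd)).2)
          rwa [htl] at this
        have h4 : D l = D (l.take M) + D (l.drop M) := by
          rw [← D_append, List.take_append_drop]
        have h5 : 1 / nm.p = M * (1 / nd0.p) := by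
          rw [hnm, one_div_div]; ring
        rw [D_cons, h4, h5]
        have h6 : (M : ℝ) / P = M * (1 / P) := by ring
        rw [h6] at h3
        nlinarith [a5]

/-- Grouping everything, the last group may be smaller. -/
theorem group_all (M : ℕ) (hM : 1 ≤ M) (z P : ℝ) (hz : 0 < z) (hzP : z ≤ P)
    (l : List (Node s)) (hl : ∀ nd ∈ l, z ≤ nd.p ∧ nd.p ≤ P) :
    ∃ l' : List (Node s), ((l'.length : ℝ) ≤ l.length / M + 1) ∧
      (∀ i, Cov l i → Cov l' i) ∧ D l' ≤ D l + M * (1 / z - 1 / P) := by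
  obtain ⟨l1, hp, hs⟩ := exists_sorted l
  obtain ⟨l', a1, a4, a5⟩ := group_all_aux M hM z hz l1.length P hzP l1 le_rfl hs
    (fun nd hnd => hl nd (hp.mem_iff.1 hnd))
  exact ⟨l', by rw [← hp.length_eq]; exact a1, fun i hi => a4 i (cov_perm hp.symm hi),
    by rw [← D_perm hp]; exact a5⟩

/-- Pairing, a single leftover channel is simply run twice as fast. -/
theorem group_pair (z P : ℝ) (hz : 0 < z) (hzP : z ≤ P)
    (l : List (Node s)) (hl : ∀ nd ∈ l, z ≤ nd.p ∧ nd.p ≤ P) :
    ∃ l' : List (Node s), (∀ nd ∈ l', z / 2 ≤ nd.p ∧ nd.p ≤ P / 2) ∧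
      (∀ i, Cov l i → Cov l' i) ∧ D l' ≤ D l + 2 * (1 / z - 1 / P) + 1 / z := by
  obtain ⟨l', left, a1, a2, a3, a4, a5⟩ := group_exact 2 (by norm_num) z P hz hzP l hl
  have hz1 : 0 < 1 / z := one_div_pos.2 hz
  match left, a2, a3, a4, a5 with
  | [], a2, a3, a4, a5 =>
    refine ⟨l', by simpa using a1, ?_, ?_⟩
    · intro i hi
      rcases a4 i hi with h | ⟨nd, h, -⟩
      · exact h
      · simp at h
    · rw [D_nil] at a5
      push_cast at a5
      linarith
  | [nd], a2, a3, a4, a5 =>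
    obtain ⟨nm, hnm, hcov⟩ := exists_merge [nd] 2 (by norm_num) (by simp) nd.p nd.pos
      (by intro nd' h; simp at h; rw [h])
    have hnd := hl nd (a2 nd (by simp))
    push_cast at hnm
    refine ⟨nm :: l', ?_, ?_, ?_⟩
    · intro nd' hnd'
      rcases List.mem_cons.1 hnd' with rfl | h
      · rw [hnm]
        exact ⟨by linarith [hnd.1], by linarith [hnd.2]⟩
      · simpa using a1 nd' h
    · intro i hi
      rcases a4 i hi with ⟨nd', b1, b2⟩ | h
      · exact ⟨nd', List.mem_cons_of_mem _ b1, b2⟩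
      · exact ⟨nm, by simp, hcov i h⟩
    · rw [D_cons, D_nil] at a5
      have h5 : 1 / nm.p = 2 * (1 / nd.p) := by
        rw [hnm, one_div_div]; ring
      have h6 : 1 / nd.p ≤ 1 / z := one_div_le_one_div_of_le hz hnd.1
      rw [D_cons, h5]
      push_cast at a5
      linarith
  | _ :: _ :: _, a2, a3, a4, a5 => simp at a3

end Pool.Agent.Helper21.Pin
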