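import Pool.Agent.Helper21.Pin.Merge

namespace Pool.Agent.Helper21.Pin

private lemma octave_aux {ι : Type} {s : ι → ℝ} (a : ℝ) (ha : 0 < a) (K : ℕ) :
    ∀ l : List (Node s), (∀ nd ∈ l, a ≤ nd.p ∧ nd.p ≤ 2 ^ (K + 1) * a) →
    ∃ l' : List (Node s), (∀ nd ∈ l', a ≤ nd.p ∧ nd.p ≤ 2 * a) ∧ (∀ i, Cov l i → Cov l' i) ∧
      D l' ≤ D l + (2 - 2 / 2 ^ K) / a := by
  classical
  induction K with
  | zero =>
    intro l hl
    exact ⟨l, by simpa using hl, fun i hi => hi, by simp⟩
  | succ K ih =>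
    intro l hl
    set z : ℝ := 2 ^ (K + 1) * a with hz
    have hz0 : 0 < z := by positivity
    have haz : a ≤ z / 2 := by
      rw [hz, pow_succ]
      have : (1 : ℝ) ≤ 2 ^ K := one_le_pow₀ (by norm_num)
      nlinarith
    let big := l.filter fun nd => decide (z ≤ nd.p)
    let small := l.filter fun nd => !decide (z ≤ nd.p)
    have hperm : (big ++ small).Perm l := List.filter_append_perm _ _
    obtain ⟨l1, h1, h2, h3⟩ := group_pair z (2 * z) hz0 (by linarith) big (by
      intro nd hnd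
      obtain ⟨hm, hz'⟩ := List.mem_filter.1 hnd
      refine ⟨by simpa using hz', ?_⟩
      have := (hl nd hm).2
      rw [pow_succ] at this
      rw [hz]; linarith)
    obtain ⟨l', g1, g2, g3⟩ := ih (l1 ++ small) (by
      intro nd hnd
      rcases List.mem_append.1 hnd with h | h
      · have := h1 nd h
        exact ⟨by linarith, by linarith⟩
      · obtain ⟨hm, hz'⟩ := List.mem_filter.1 h
        have hz'' : nd.p < z := by simpa using hz'
        exact ⟨(hl nd hm).1, hz''.le⟩)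
    refine ⟨l', g1, ?_, ?_⟩
    · intro i hi
      apply g2
      obtain ⟨nd, hnd, hi⟩ := cov_perm hperm.symm hi
      rcases List.mem_append.1 hnd with h | h
      · obtain ⟨nd', b1, b2⟩ := h2 i ⟨nd, h, hi⟩
        exact ⟨nd', List.mem_append_left _ b1, b2⟩
      · exact ⟨nd, List.mem_append_right _ h, hi⟩
    · have e1 : D l = D big + D small := by rw [← D_append, D_perm hperm]
      rw [D_append] at g3
      have e2 : 2 * (1 / z - 1 / (2 * z)) + 1 / z = 2 / z := by field_simp; ring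
      have e3 : (2 - 2 / 2 ^ (K + 1)) / a = (2 - 2 / 2 ^ K) / a + 2 / z := by
        rw [hz, pow_succ]; field_simp; ring
      rw [e1, e3]
      linarith

/-- All periods can be brought into one octave. -/
theorem octave {ι : Type} [Fintype ι] (s : ι → ℝ) (a : ℝ) (ha : 0 < a) (hs : ∀ i, a ≤ s i) :
    ∃ l : List (Node s), (∀ nd ∈ l, a ≤ nd.p ∧ nd.p ≤ 2 * a) ∧ (∀ i, Cov l i) ∧
      D l ≤ ∑ i, 1 / s i + 2 / a := by
  classical
  choose nd hp hA using fun i => exists_single i (lt_of_lt_of_le ha (hs i))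
  let l0 : List (Node s) := Finset.univ.toList.map nd
  obtain ⟨K, hK⟩ : ∃ K : ℕ, ∀ i, s i ≤ 2 ^ (K + 1) * a := by
    have h1 : ∀ i, ∃ K : ℕ, s i ≤ 2 ^ K * a := by
      intro i
      obtain ⟨K, hK⟩ := pow_unbounded_of_one_lt (s i / a) (show (1 : ℝ) < 2 by norm_num)
      refine ⟨K, ?_⟩
      rw [div_lt_iff₀ ha] at hK
      exact hK.le
    choose K hK using h1
    refine ⟨Finset.univ.sup K, fun i => (hK i).trans ?_⟩
    have : K i ≤ Finset.univ.sup K + 1 := (Finset.le_sup (Finset.mem_univ i)).trans (by omega)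
    gcongr
    norm_num
  obtain ⟨l, h1, h2, h3⟩ := octave_aux a ha K l0 (by
    intro n hn
    obtain ⟨i, -, rfl⟩ := List.mem_map.1 hn
    rw [hp]
    exact ⟨hs i, hK i⟩)
  refine ⟨l, h1, fun i => h2 i ⟨nd i, List.mem_map.2 ⟨i, by simp, rfl⟩, by rw [hA]; simp⟩, ?_⟩
  refine h3.trans ?_
  have e1 : D l0 = ∑ i, 1 / s i := by
    unfold D
    rw [List.map_map, Finset.sum_map_toList]
    exact Finset.sum_congr rfl fun i _ => by simp [hp]
  rw [e1]
  gcongr
  have : (0 : ℝ) < 2 / 2 ^ K := by positivity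
  linarith

end Pool.Agent.Helper21.Pin
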