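import Mathlib

namespace Pool.Agent.Helper21.Pin

theorem exists_T (d : ℕ) (hd : 1 ≤ d) (T₁ : ℕ) : ∃ a₀ : ℕ, ∀ a : ℕ, a₀ ≤ a →
    ∃ T : ℕ, T₁ ≤ T ∧ a ≤ T ^ d ∧ T ^ d ≤ 2 * a := by
  obtain ⟨M, hM1, hM2⟩ : ∃ M : ℕ, T₁ ≤ M ∧ 2 * d ≤ M := ⟨max T₁ (2 * d), by simp, by simp⟩
  refine ⟨M ^ d + 1, fun a ha => ?_⟩
  have hex : ∃ T : ℕ, a ≤ T ^ d := ⟨a, Nat.le_self_pow (by omega) a⟩
  classical
  obtain ⟨T, hT⟩ : ∃ T, T = Nat.find hex := ⟨_, rfl⟩
  have hT1 : a ≤ T ^ d := hT ▸ Nat.find_spec hex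
  have hMT : M < T := by
    by_contra h
    push Not at h
    have := Nat.pow_le_pow_left h d
    omega
  have hT2 : (T - 1) ^ d < a := by
    by_contra h
    push Not at h
    have := Nat.find_min' hex h
    omega
  refine ⟨T, by omega, hT1, ?_⟩
  have hTpos : (0 : ℝ) < T := by
    have : 0 < T := by omega
    exact_mod_cast this
  have hT3 : (2 * d : ℝ) ≤ T := by
    have : 2 * d ≤ T := by omega
    exact_mod_cast this
  have h1 : (1 : ℝ) / 2 ≤ (1 + -(1 / (T : ℝ))) ^ d := by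
    have h2 : (-2 : ℝ) ≤ -(1 / (T : ℝ)) := by
      have : 1 / (T : ℝ) ≤ 2 := by
        rw [div_le_iff₀ hTpos]
        have : (1 : ℝ) ≤ T := by
          have : 1 ≤ T := by omega
          exact_mod_cast this
        linarith
      linarith
    refine le_trans ?_ (one_add_mul_le_pow h2 d)
    have : (d : ℝ) * (1 / (T : ℝ)) ≤ 1 / 2 := by
      rw [mul_one_div, div_le_iff₀ hTpos]
      linarith
    linarith
  have h3 : ((T - 1 : ℕ) : ℝ) ^ d = (T : ℝ) ^ d * (1 + -(1 / (T : ℝ))) ^ d := by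
    rw [← mul_pow]
    congr 1
    rw [Nat.cast_sub (by omega)]
    field_simp
    push_cast
    ring
  have h4 : (T : ℝ) ^ d ≤ 2 * ((T - 1 : ℕ) : ℝ) ^ d := by
    rw [h3]
    have : 0 ≤ (T : ℝ) ^ d := by positivity
    nlinarith
  have h5 : T ^ d ≤ 2 * (T - 1) ^ d := by exact_mod_cast h4
  omega

theorem params (F : ℕ) (K : ℝ) : ∃ T₁ : ℕ, ∀ T : ℕ, T₁ ≤ T →
    ∃ y : ℝ, 1 ≤ y ∧ y ^ (2 * F + 4) = T ∧ K * (Real.log T) ^ (F + 1) ≤ y := by
  have hpos : (0 : ℝ) < 1 / ((2 * F + 4 : ℕ) : ℝ) := by positivity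
  have h1 := isLittleO_log_rpow_rpow_atTop ((F + 1 : ℕ) : ℝ) hpos
  have hK : (0 : ℝ) < 1 / (|K| + 1) := by positivity
  have h2 := (h1.bound hK)
  have h3 := (tendsto_natCast_atTop_atTop (R := ℝ)).eventually h2
  obtain ⟨T₂, hT₂⟩ := Filter.eventually_atTop.1 h3
  refine ⟨max T₂ 1, fun T hT => ⟨(T : ℝ) ^ (1 / ((2 * F + 4 : ℕ) : ℝ)), ?_, ?_, ?_⟩⟩
  · apply Real.one_le_rpow
    · have : 1 ≤ T := le_trans (le_max_right _ _) hT
      exact_mod_cast this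
    · exact hpos.le
  · rw [← Real.rpow_natCast, ← Real.rpow_mul (by positivity)]
    rw [one_div, inv_mul_cancel₀ (by positivity), Real.rpow_one]
  · have h4 := hT₂ T (le_trans (le_max_left _ _) hT)
    rw [Real.norm_eq_abs, Real.norm_eq_abs, Real.rpow_natCast] at h4
    have h5 : 0 ≤ (T : ℝ) ^ (1 / ((2 * F + 4 : ℕ) : ℝ)) := by positivity
    rw [abs_of_nonneg h5] at h4
    have h6 : K * Real.log T ^ (F + 1) ≤ |K| * |Real.log T ^ (F + 1)| := by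
      rw [← abs_mul]; exact le_abs_self _
    refine h6.trans ?_
    calc |K| * |Real.log T ^ (F + 1)|
        ≤ |K| * (1 / (|K| + 1) * (T : ℝ) ^ (1 / ((2 * F + 4 : ℕ) : ℝ))) := by gcongr
      _ = (|K| / (|K| + 1)) * (T : ℝ) ^ (1 / ((2 * F + 4 : ℕ) : ℝ)) := by ring
      _ ≤ 1 * (T : ℝ) ^ (1 / ((2 * F + 4 : ℕ) : ℝ)) := by
          gcongr
          rw [div_le_one (by positivity)]
          linarith [abs_nonneg K]
      _ = _ := one_mul _

end Pool.Agent.Helper21.Pin
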