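import Pool.Agent.Helper21.Pin.Host
import Pool.Agent.Helper21.Pin.ListD

namespace Pool.Agent.Helper21.Pin

/-- The threshold `1 - C a^(-F/(F+1))`, written without real powers. -/
def PW (F : ℕ) : Prop := ∃ C : ℝ, 0 < C ∧ ∀ (ι : Type) [Fintype ι] (x : ι → ℕ) (a : ℕ) (z : ℝ),
  1 ≤ a → (∀ i, a ≤ x i) → 0 ≤ z → C ≤ z ^ (F + 1) * (a : ℝ) ^ F →
  ∑ i, 1 / (x i : ℝ) ≤ 1 - z → Sched x

theorem reserve (F : ℕ) (C' : ℝ)
    (ih : ∀ (ι : Type) [Fintype ι] (x : ι → ℕ) (a : ℕ) (z : ℝ),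
      1 ≤ a → (∀ i, a ≤ x i) → 0 ≤ z → C' ≤ z ^ (F + 1) * (a : ℝ) ^ F →
      ∑ i, 1 / (x i : ℝ) ≤ 1 - z → Sched x)
    {ι : Type} (s : ι → ℝ) (A : Finset ι) (a : ℝ) (ha : 0 < a) (hs : ∀ i, a / 2 ≤ s i)
    (Λ θ : ℝ) (hΛ : ∑ i ∈ A, 1 / s i ≤ Λ) (hθ : 8 ≤ a * θ)
    (hmain : C' * 2 ^ (3 * F + 1) * (Λ + θ) ≤ θ ^ (F + 1) * a ^ F) :
    Host s (1 / (Λ + θ)) A := by
  have hs0 : ∀ i, 0 < s i := fun i => lt_of_lt_of_le (by positivity) (hs i)
  have hΛ0 : 0 ≤ Λ := le_trans (Finset.sum_nonneg fun i _ => by have := hs0 i; positivity) hΛ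
  have hθ0 : 0 < θ := by
    by_contra h
    push Not at h
    nlinarith
  have hr : 0 < Λ + θ := by linarith
  set u : ℝ := Λ + θ with hu
  apply host_of_sched s (1 / u) (by positivity) A
  -- sizes
  have hsu : ∀ i, s i / (1 / u) = s i * u := fun i => by rw [div_div_eq_mul_div, div_one]
  have hau : 4 ≤ a / 2 * u := by nlinarith
  obtain ⟨a', ha'⟩ : ∃ a' : ℕ, a' = ⌊a / 2 * u⌋₊ := ⟨_, rfl⟩
  have ha'1 : (a : ℝ) / 4 * u ≤ a' := by
    have := Nat.lt_floor_add_one (a / 2 * u)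
    rw [← ha'] at this
    linarith
  have ha'2 : 1 ≤ a' := by
    have : (1 : ℝ) ≤ a' := by linarith
    exact_mod_cast this
  apply ih _ _ a' ((1 / u) * (θ - 4 / a)) ha'2
  · intro i
    rw [ha', hsu]
    exact Nat.floor_le_floor (mul_le_mul_of_nonneg_right (hs i) hr.le)
  · have : 4 / a ≤ θ := by
      rw [div_le_iff₀ ha]; nlinarith
    have : 0 ≤ θ - 4 / a := by linarith
    positivity
  · have h1 : θ / 2 ≤ θ - 4 / a := by
      have : 4 / a ≤ θ / 2 := by
        rw [div_le_iff₀ ha]; nlinarith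
      linarith
    have h2 : (1 / u * (θ / 2)) ^ (F + 1) * (a / 4 * u) ^ F ≤
        (1 / u * (θ - 4 / a)) ^ (F + 1) * (a' : ℝ) ^ F := by
      have h21 : 0 ≤ θ - 4 / a := by linarith
      have h22 : 0 ≤ (1 / u * (θ - 4 / a)) ^ (F + 1) := by positivity
      gcongr
    refine le_trans ?_ h2
    have h3 : (1 / u * (θ / 2)) ^ (F + 1) * (a / 4 * u) ^ F =
        θ ^ (F + 1) * a ^ F / (2 ^ (3 * F + 1) * u) := by
      have h2u : (2 : ℝ) ^ (3 * F + 1) = 2 ^ (F + 1) * 4 ^ F := by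
        rw [show (4 : ℝ) = 2 ^ 2 by norm_num, ← pow_mul, ← pow_add]
        congr 1
        ring
      rw [h2u]
      field_simp
      rw [div_pow, mul_pow, div_pow]
      field_simp
      ring_nf
    rw [h3, le_div_iff₀ (by positivity)]
    linarith
  · rw [← Finset.sum_coe_sort A] at hΛ
    have h1 : ∀ i : A, 1 / ((⌊s i / (1 / u)⌋₊ : ℕ) : ℝ) ≤
        (1 / u) * (1 / s i) * (1 + 4 / (a * u)) := by
      intro i
      rw [hsu]
      have h2 : a / 2 * u ≤ s i * u := mul_le_mul_of_nonneg_right (hs i) hr.le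
      have h3 := Nat.lt_floor_add_one (s i * u)
      have h4 : 0 < s i * u - 1 := by linarith
      have h5 : 1 / ((⌊s i * u⌋₊ : ℕ) : ℝ) ≤ 1 / (s i * u - 1) :=
        one_div_le_one_div_of_le h4 (by linarith)
      refine le_trans h5 ?_
      have h6 : (1 / u) * (1 / s i) = 1 / (s i * u) := by
        have := hs0 i
        field_simp
      rw [h6, div_le_iff₀ h4]
      have h7 : 0 < s i * u := by linarith
      have h8 : 1 / (s i * u) * (1 + 4 / (a * u)) * (s i * u - 1) =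
          (1 + 4 / (a * u)) * (1 - 1 / (s i * u)) := by
        have := hs0 i
        field_simp
      rw [h8]
      have h9 : 1 / (s i * u) ≤ 2 / (a * u) := by
        rw [div_le_div_iff₀ h7 (by positivity)]
        nlinarith
      have h10 : 2 / (a * u) ≤ 1 / 4 := by
        rw [div_le_div_iff₀ (by positivity) (by norm_num)]
        nlinarith
      have h11 : 4 / (a * u) = 2 * (2 / (a * u)) := by ring
      have h12 : 0 < 2 / (a * u) := by positivity
      rw [h11]
      nlinarith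
    calc ∑ i : A, 1 / ((⌊s i / (1 / u)⌋₊ : ℕ) : ℝ)
        ≤ ∑ i : A, (1 / u) * (1 / s i) * (1 + 4 / (a * u)) := Finset.sum_le_sum fun i _ => h1 i
      _ = (1 / u) * (1 + 4 / (a * u)) * ∑ i : A, 1 / s i := by
          rw [Finset.mul_sum]
          exact Finset.sum_congr rfl fun i _ => by ring
      _ ≤ (1 / u) * (1 + 4 / (a * u)) * Λ := by
          gcongr
      _ ≤ 1 - 1 / u * (θ - 4 / a) := by
          have h13 : 1 - 1 / u * (θ - 4 / a) - (1 / u) * (1 + 4 / (a * u)) * Λ =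
              1 / u * (4 / a) * (1 - Λ / u) := by
            have h14 : (1 : ℝ) = 1 / u * u := by field_simp
            rw [hu]
            have : Λ + θ ≠ 0 := hr.ne'
            field_simp
            ring
          have h15 : Λ / u ≤ 1 := by
            rw [div_le_one hr]; linarith
          have h16 : 0 ≤ 1 / u * (4 / a) * (1 - Λ / u) := by
            apply mul_nonneg (by positivity)
            linarith
          linarith

end Pool.Agent.Helper21.Pin
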