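import Pool.Agent.Helper21.Pin.Levels
import Pool.Agent.Helper21.Pin.ListD

namespace Pool.Agent.Helper21.Pin

/-- The constant of the leftovers. -/
noncomputable def c₁ (F : ℕ) : ℝ := 6 * F * 12 ^ F

theorem c₁_nonneg (F : ℕ) : 0 ≤ c₁ F := by unfold c₁; positivity

theorem c₁_bound (F T : ℕ) (hT : 1 ≤ T) (B : Finset ℕ) (hB : ∀ b ∈ B, T < b ∧ b ≤ 4 * T)
    (a W : ℝ) (ha : 0 < a) (hW1 : a / 2 / (4 * (T : ℝ)) ^ F ≤ W) :
    (B.card : ℝ) / W * ∑ j ∈ Finset.range F, (∑ b ∈ B, 1 / (b : ℝ)) ^ j ≤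
      c₁ F * (T : ℝ) ^ (F + 1) / a := by
  have hT0 : (0 : ℝ) < T := by exact_mod_cast hT
  have hcard : (B.card : ℝ) ≤ 3 * T := by
    have : B ⊆ Finset.Ioc T (4 * T) := fun b hb => Finset.mem_Ioc.2 (hB b hb)
    have h2 := Finset.card_le_card this
    rw [Nat.card_Ioc] at h2
    have h3 : B.card ≤ 3 * T := by omega
    exact_mod_cast h3
  have hW0 : 0 < W := lt_of_lt_of_le (by positivity) hW1
  have hκ0 : 0 ≤ ∑ b ∈ B, 1 / (b : ℝ) := Finset.sum_nonneg fun b _ => by positivity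
  have hκ : ∑ b ∈ B, 1 / (b : ℝ) ≤ 3 := by
    have h1 : ∀ b ∈ B, 1 / (b : ℝ) ≤ 1 / T := by
      intro b hb
      apply one_div_le_one_div_of_le hT0
      exact_mod_cast (hB b hb).1.le
    calc ∑ b ∈ B, 1 / (b : ℝ) ≤ ∑ b ∈ B, 1 / (T : ℝ) := Finset.sum_le_sum h1
      _ = B.card * (1 / T) := by rw [Finset.sum_const, nsmul_eq_mul]
      _ ≤ 3 * T * (1 / T) := by gcongr
      _ = 3 := by field_simp
  have hsum : ∑ j ∈ Finset.range F, (∑ b ∈ B, 1 / (b : ℝ)) ^ j ≤ F * 3 ^ F := by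
    calc ∑ j ∈ Finset.range F, (∑ b ∈ B, 1 / (b : ℝ)) ^ j
        ≤ ∑ j ∈ Finset.range F, (3 : ℝ) ^ F := by
          apply Finset.sum_le_sum
          intro j hj
          calc (∑ b ∈ B, 1 / (b : ℝ)) ^ j ≤ 3 ^ j := pow_le_pow_left₀ hκ0 hκ j
            _ ≤ 3 ^ F := pow_le_pow_right₀ (by norm_num) (Finset.mem_range.1 hj).le
      _ = F * 3 ^ F := by rw [Finset.sum_const, nsmul_eq_mul, Finset.card_range]
  have hBW : (B.card : ℝ) / W ≤ 6 * 4 ^ F * (T : ℝ) ^ (F + 1) / a := by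
    rw [div_le_div_iff₀ hW0 ha]
    have h1 : a ≤ 2 * (4 * (T : ℝ)) ^ F * W := by
      rw [div_le_iff₀ (by positivity)] at hW1
      linarith
    calc (B.card : ℝ) * a ≤ 3 * T * (2 * (4 * (T : ℝ)) ^ F * W) := by gcongr
      _ = 6 * 4 ^ F * (T : ℝ) ^ (F + 1) * W := by rw [mul_pow]; ring
  calc (B.card : ℝ) / W * ∑ j ∈ Finset.range F, (∑ b ∈ B, 1 / (b : ℝ)) ^ j
      ≤ 6 * 4 ^ F * (T : ℝ) ^ (F + 1) / a * (F * 3 ^ F) := by gcongr
    _ = c₁ F * (T : ℝ) ^ (F + 1) / a := by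
        unfold c₁
        rw [show (12 : ℝ) = 4 * 3 by norm_num, mul_pow]
        ring

/-- Everything that happens at one scale `W`. -/
theorem scale {ι : Type} {s : ι → ℝ} (F T : ℕ) (hT : 1 ≤ T) (B : Finset ℕ)
    (hB : ∀ b ∈ B, T < b ∧ b ≤ 4 * T) (a W : ℝ) (ha : 0 < a)
    (hW1 : a / 2 / (4 * (T : ℝ)) ^ F ≤ W) (hW2 : W ≤ 2 * (a / 2) / (T : ℝ) ^ F)
    (L : (Fin F → B) → List (Node s))
    (hL : ∀ b, ∀ nd ∈ L b, (∏ i, ((b i : ℕ) : ℝ)) * W ≤ nd.p ∧
      nd.p ≤ (∏ i, ((b i : ℕ) : ℝ)) * W * (1 + 1 / (4 * (T : ℝ)) ^ F)) :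
    ∃ l left : List (Node s), (∀ b i, Cov (L b) i → Cov l i ∨ Cov left i) ∧
      D l + D left ≤ ∑ b, D (L b) + (c₁ F + 2) * T / a ∧
      D left ≤ c₁ F * (T : ℝ) ^ (F + 1) / a ∧
      (l.length : ℝ) ≤ 2 * a / (T : ℝ) ^ (F + 1) * (∑ b, D (L b) + (c₁ F + 2) * T / a) + 1 := by
  have hT0 : (0 : ℝ) < T := by exact_mod_cast hT
  have hT1 : (1 : ℝ) ≤ T := by exact_mod_cast hT
  have hW0 : 0 < W := lt_of_lt_of_le (by positivity) hW1
  set ω : ℝ := 1 / (4 * (T : ℝ)) ^ F with hω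
  have hω0 : 0 < ω := by positivity
  have hω1 : ω ≤ 1 := by
    rw [hω, div_le_one (by positivity)]
    exact one_le_pow₀ (by linarith)
  obtain ⟨l', left, h1, h2, h3, h4, h5⟩ := levels B (fun b hb => by have := hB b hb; omega) W ω
    hW0 hω0.le F L hL
  obtain ⟨l, g1, g2, g3⟩ := group_all T hT W (W * (1 + ω)) hW0 (by nlinarith) l' h1
  have hb := c₁_bound F T hT B hB a W ha hW1
  have hc := c₁_nonneg F
  have hDleft := D_nonneg left
  -- loss of the levels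
  have hloss1 : ω * ((B.card : ℝ) / W * ∑ j ∈ Finset.range F, (∑ b ∈ B, 1 / (b : ℝ)) ^ j) ≤
      c₁ F * T / a := by
    calc _ ≤ ω * (c₁ F * (T : ℝ) ^ (F + 1) / a) := by gcongr
      _ = c₁ F * T / a * ((T : ℝ) ^ F / (4 * (T : ℝ)) ^ F) := by rw [hω]; ring
      _ ≤ c₁ F * T / a * 1 := by
          gcongr
          rw [div_le_one (by positivity)]
          gcongr
          linarith
      _ = _ := mul_one _
  -- loss of the last grouping
  have hloss2 : (T : ℝ) * (1 / W - 1 / (W * (1 + ω))) ≤ 2 * T / a := by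
    have h6 : 1 / W - 1 / (W * (1 + ω)) ≤ ω / W := by
      have h7 : 1 / W - 1 / (W * (1 + ω)) = ω / W * (1 / (1 + ω)) := by
        field_simp
        ring
      rw [h7]
      have h8 : 1 / (1 + ω) ≤ 1 := by
        rw [div_le_one (by positivity)]; linarith
      have h9 : 0 ≤ ω / W := by positivity
      nlinarith
    have h10 : ω / W ≤ 2 / a := by
      rw [hω, div_div, div_le_div_iff₀ (by positivity) ha]
      rw [div_le_iff₀ (by positivity)] at hW1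
      linarith
    calc (T : ℝ) * (1 / W - 1 / (W * (1 + ω))) ≤ T * (2 / a) := by
          gcongr
          exact h6.trans h10
      _ = _ := by ring
  refine ⟨l, left, ?_, ?_, ?_, ?_⟩
  · intro b i hi
    rcases h2 b i hi with h | h
    · exact Or.inl (g2 i h)
    · exact Or.inr h
  · have : (c₁ F + 2) * T / a = c₁ F * T / a + 2 * T / a := by ring
    rw [this]
    linarith
  · exact h5.trans hb
  · have h6 : D l' ≤ ∑ b, D (L b) + (c₁ F + 2) * T / a := by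
      have : (c₁ F + 2) * T / a = c₁ F * T / a + 2 * T / a := by ring
      have h7 : 0 ≤ 2 * T / a := by positivity
      rw [this]
      linarith
    have h7 : (l'.length : ℝ) ≤ W * (1 + ω) * D l' := length_le_of_D l' _ fun nd hnd => (h1 nd hnd).2
    have h8 : W * (1 + ω) ≤ 2 * a / (T : ℝ) ^ F := by
      calc W * (1 + ω) ≤ (2 * (a / 2) / (T : ℝ) ^ F) * (1 + 1) := by gcongr
        _ = _ := by ring
    have h9 := D_nonneg l'
    calc (l.length : ℝ) ≤ l'.length / T + 1 := g1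
      _ ≤ (2 * a / (T : ℝ) ^ F * (∑ b, D (L b) + (c₁ F + 2) * T / a)) / T + 1 := by
          gcongr
          exact h7.trans (by gcongr)
      _ = _ := by
          rw [pow_succ]
          field_simp

end Pool.Agent.Helper21.Pin
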