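import Pool.Agent.Helper21.Pin.Octave
import Pool.Agent.Helper21.Pin.Scale
import Pool.Agent.Helper21.Pin.Reserve
import Pool.Agent.Helper21.Pin.Params

namespace Pool.Agent.Helper21.Pin

/-- The statement of the coverage lemma for `F` with constant `c`. -/
def CoverStmt (F : ℕ) (c : ℝ) : Prop := ∀ (T : ℕ) (B : Finset ℕ), 1 ≤ T →
    (∀ b ∈ B, b.Prime ∧ T < b ∧ b ≤ 4 * T) → F ≤ B.card →
    ∀ (a : ℝ), 0 < a → ∀ X : Finset ℝ, (∀ x ∈ X, a ≤ x ∧ x ≤ 2 * a) →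
    ∃ Ws : Finset ℝ,
      ((Ws.card : ℝ) ≤ c * ((T : ℝ) / B.card) ^ F * (Real.log (X.card + 1) + 1)) ∧
      (∀ W ∈ Ws, a / (4 * (T : ℝ)) ^ F ≤ W ∧ W ≤ 2 * a / (T : ℝ) ^ F) ∧
      ∀ x ∈ X, ∃ W ∈ Ws, ∃ b : Fin F → B, (∏ i, ((b i : ℕ) : ℝ)) * W ≤ x ∧
        x ≤ (∏ i, ((b i : ℕ) : ℝ)) * W * (1 + 1 / (4 * (T : ℝ)) ^ F)

theorem cover_zero : CoverStmt 0 1 := by
  intro T B hT hB hF a ha X hX
  refine ⟨{a}, ?_, ?_, ?_⟩
  · have : 0 ≤ Real.log ((X.card : ℝ) + 1) := Real.log_nonneg (by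
      have : (0 : ℝ) ≤ X.card := by positivity
      linarith)
    simp
    linarith
  · intro W hW
    rw [Finset.mem_singleton] at hW
    subst hW
    constructor
    · simp
    · simp
      linarith
  · intro x hx
    obtain ⟨h1, h2⟩ := hX x hx
    refine ⟨a, Finset.mem_singleton_self _, fun i => i.elim0, ?_, ?_⟩
    · simpa using h1
    · simp
      linarith

/-- Subtracting `J` from the periods costs at most `2 J / a`. -/
theorem shift_cost {ι : Type} [Fintype ι] (x : ι → ℕ) (a J : ℝ) (ha : 0 < a)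
    (hx : ∀ i, a ≤ x i) (hJ0 : 0 ≤ J) (hJ : J ≤ a / 2) (hD : ∑ i, 1 / (x i : ℝ) ≤ 1) :
    ∑ i, 1 / ((x i : ℝ) - J) ≤ ∑ i, 1 / (x i : ℝ) + 2 * J / a := by
  have h1 : ∀ i, 1 / ((x i : ℝ) - J) ≤ 1 / (x i : ℝ) * (1 + 2 * J / a) := by
    intro i
    have h2 := hx i
    have h3 : 0 < (x i : ℝ) - J := by linarith
    have h4 : 0 < (x i : ℝ) := by linarith
    rw [div_le_iff₀ h3]
    have h5 : 1 / (x i : ℝ) * (1 + 2 * J / a) * ((x i : ℝ) - J) =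
        1 + J / (a * x i) * (2 * (x i : ℝ) - a - 2 * J) := by
      field_simp
      ring
    rw [h5]
    have h6 : 0 ≤ J / (a * x i) := by positivity
    nlinarith
  calc ∑ i, 1 / ((x i : ℝ) - J) ≤ ∑ i, 1 / (x i : ℝ) * (1 + 2 * J / a) :=
        Finset.sum_le_sum fun i _ => h1 i
    _ = (∑ i, 1 / (x i : ℝ)) + (∑ i, 1 / (x i : ℝ)) * (2 * J / a) := by
        rw [← Finset.sum_mul]; ring
    _ ≤ (∑ i, 1 / (x i : ℝ)) + 1 * (2 * J / a) := by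
        gcongr
    _ = _ := by ring

open Classical in
/-- All scales together: the channels obtained, and the tasks left over. -/
theorem all_scales {ι : Type} [Fintype ι] {s : ι → ℝ} (hs : ∀ i, 0 < s i) (F T : ℕ) (hT : 1 ≤ T)
    (B : Finset ℕ) (hB : ∀ b ∈ B, T < b ∧ b ≤ 4 * T) (hBne : B.Nonempty) (a : ℝ) (ha : 0 < a)
    (l₀ : List (Node s)) (hl₀ : ∀ i, Cov l₀ i) (X : Finset ℝ) (hX : ∀ nd ∈ l₀, nd.p ∈ X)
    (Ws : Finset ℝ)
    (hWs : ∀ W ∈ Ws, a / 2 / (4 * (T : ℝ)) ^ F ≤ W ∧ W ≤ 2 * (a / 2) / (T : ℝ) ^ F)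
    (hcov : ∀ x ∈ X, ∃ W ∈ Ws, ∃ b : Fin F → B, (∏ i, ((b i : ℕ) : ℝ)) * W ≤ x ∧
        x ≤ (∏ i, ((b i : ℕ) : ℝ)) * W * (1 + 1 / (4 * (T : ℝ)) ^ F)) :
    ∃ (l : List (Node s)) (A : Finset ι) (Λ : ℝ), (∀ i, Cov l i ∨ i ∈ A) ∧
      ∑ i ∈ A, 1 / s i ≤ Λ ∧ Λ ≤ Ws.card * (c₁ F * (T : ℝ) ^ (F + 1) / a) ∧
      D l + Λ ≤ D l₀ + Ws.card * ((c₁ F + 2) * T / a) ∧
      (l.length : ℝ) ≤ 2 * a / (T : ℝ) ^ (F + 1) * (D l₀ + Ws.card * ((c₁ F + 2) * T / a)) +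
        Ws.card := by
  obtain ⟨b₀, hb₀⟩ := hBne
  have h1 : ∀ x : ℝ, ∃ w : ℝ × (Fin F → B), x ∈ X → (w.1 ∈ Ws ∧
      (∏ i, ((w.2 i : ℕ) : ℝ)) * w.1 ≤ x ∧
        x ≤ (∏ i, ((w.2 i : ℕ) : ℝ)) * w.1 * (1 + 1 / (4 * (T : ℝ)) ^ F)) := by
    intro x
    by_cases hx : x ∈ X
    · obtain ⟨W, hW, b, h1, h2⟩ := hcov x hx
      exact ⟨(W, b), fun _ => ⟨hW, h1, h2⟩⟩
    · exact ⟨(0, fun _ => ⟨b₀, hb₀⟩), fun h => absurd h hx⟩
  choose g hg using h1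
  obtain ⟨L, hL⟩ : ∃ L : ℝ → (Fin F → B) → List (Node s),
      ∀ W b, L W b = l₀.filter fun nd => g nd.p = (W, b) := ⟨_, fun _ _ => rfl⟩
  have hsum : ∑ W ∈ Ws, ∑ b, D (L W b) = D l₀ := by
    have h2 := D_classes (Ws ×ˢ (Finset.univ : Finset (Fin F → B))) (fun nd => g nd.p) l₀ (by
      intro nd hnd
      rw [Finset.mem_product]
      exact ⟨(hg _ (hX nd hnd)).1, Finset.mem_univ _⟩)
    rw [Finset.sum_product] at h2
    rw [← h2]
    apply Finset.sum_congr rfl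
    intro W _
    apply Finset.sum_congr rfl
    intro b _
    rw [hL]
    congr 1
    exact List.filter_congr fun nd _ => decide_eq_decide.2 Iff.rfl
  have h3 : ∀ W : ℝ, ∃ l left : List (Node s), W ∈ Ws →
      (∀ b i, Cov (L W b) i → Cov l i ∨ Cov left i) ∧
      D l + D left ≤ ∑ b, D (L W b) + (c₁ F + 2) * T / a ∧
      D left ≤ c₁ F * (T : ℝ) ^ (F + 1) / a ∧
      (l.length : ℝ) ≤ 2 * a / (T : ℝ) ^ (F + 1) * (∑ b, D (L W b) + (c₁ F + 2) * T / a) + 1 := by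
    intro W
    by_cases hW : W ∈ Ws
    · obtain ⟨l, left, h⟩ := scale F T hT B hB a W ha (hWs W hW).1 (hWs W hW).2 (L W) (by
        intro b nd hnd
        rw [hL, List.mem_filter, decide_eq_true_iff] at hnd
        have h4 := hg _ (hX nd hnd.1)
        rw [hnd.2] at h4
        exact h4.2)
      exact ⟨l, left, fun _ => h⟩
    · exact ⟨[], [], fun h => absurd h hW⟩
  choose lw left hw using h3
  refine ⟨Ws.toList.flatMap lw, Finset.univ.filter fun i => ∃ W ∈ Ws, Cov (left W) i,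
    ∑ W ∈ Ws, D (left W), ?_, ?_, ?_, ?_, ?_⟩
  · intro i
    obtain ⟨nd, hnd, hi⟩ := hl₀ i
    have h4 := hg _ (hX nd hnd)
    have h5 : Cov (L (g nd.p).1 (g nd.p).2) i := by
      refine ⟨nd, ?_, hi⟩
      rw [hL, List.mem_filter, decide_eq_true_iff]
      exact ⟨hnd, rfl⟩
    rcases (hw _ h4.1).1 _ i h5 with h6 | h6
    · exact Or.inl (Cov_flatMap (Finset.mem_toList.2 h4.1) h6)
    · exact Or.inr (Finset.mem_filter.2 ⟨Finset.mem_univ _, _, h4.1, h6⟩)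
  · have h4 : D (Ws.toList.flatMap left) = ∑ W ∈ Ws, D (left W) := by
      rw [D_flatMap, Finset.sum_map_toList]
    rw [← h4]
    apply tasks_density _ _ _ hs
    intro i hi
    obtain ⟨W, hW, hi⟩ := (Finset.mem_filter.1 hi).2
    exact Cov_flatMap (Finset.mem_toList.2 hW) hi
  · calc ∑ W ∈ Ws, D (left W) ≤ ∑ W ∈ Ws, c₁ F * (T : ℝ) ^ (F + 1) / a :=
          Finset.sum_le_sum fun W hW => (hw W hW).2.2.1
      _ = _ := by rw [Finset.sum_const, nsmul_eq_mul]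
  · rw [D_flatMap, Finset.sum_map_toList, ← Finset.sum_add_distrib]
    calc ∑ W ∈ Ws, (D (lw W) + D (left W))
        ≤ ∑ W ∈ Ws, (∑ b, D (L W b) + (c₁ F + 2) * T / a) :=
          Finset.sum_le_sum fun W hW => (hw W hW).2.1
      _ = _ := by rw [Finset.sum_add_distrib, hsum, Finset.sum_const, nsmul_eq_mul]
  · rw [List.length_flatMap, Finset.sum_map_toList]
    push_cast
    calc ∑ W ∈ Ws, ((lw W).length : ℝ)
        ≤ ∑ W ∈ Ws, (2 * a / (T : ℝ) ^ (F + 1) * (∑ b, D (L W b) + (c₁ F + 2) * T / a) + 1) :=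
          Finset.sum_le_sum fun W hW => (hw W hW).2.2.2
      _ = _ := by
          rw [Finset.sum_add_distrib, ← Finset.mul_sum, Finset.sum_add_distrib, hsum,
            Finset.sum_const, Finset.sum_const, nsmul_eq_mul, nsmul_eq_mul, mul_one]

end Pool.Agent.Helper21.Pin
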